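import Pool.Agent.Lib.MP_9fd99d_al.Defs

namespace Pool.Agent.Lib.MP_9fd99d_al

open Group

variable {W : Set (FreeGroup ℕ)}

theorem satisfies_iff_verbal_eq_bot (G : Type*) [Group G] : Satisfies W G ↔ verbal W G = ⊥ := by
  rw [verbal, Subgroup.closure_eq_bot_iff]
  constructor
  · rintro h _ ⟨w, hw, f, rfl⟩
    exact h w hw f
  · intro h w hw f
    exact h ⟨w, hw, f, rfl⟩

theorem lift_mem_verbal {G : Type*} [Group G] {w : FreeGroup ℕ} (hw : w ∈ W) (f : ℕ → G) :
    FreeGroup.lift f w ∈ verbal W G :=
  Subgroup.subset_closure ⟨w, hw, f, rfl⟩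

theorem Satisfies.of_injective {G H : Type*} [Group G] [Group H] (h : Satisfies W H) (φ : G →* H)
    (hφ : Function.Injective φ) : Satisfies W G := by
  intro w hw f
  apply hφ
  rw [map_lift, map_one]
  exact h w hw _

theorem Satisfies.of_surjective {G H : Type*} [Group G] [Group H] (h : Satisfies W G) (φ : G →* H)
    (hφ : Function.Surjective φ) : Satisfies W H := by
  intro w hw f
  choose g hg using fun k => hφ (f k)
  have : f = fun k => φ (g k) := funext fun k => (hg k).symm
  rw [this, ← map_lift, h w hw g, map_one]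

theorem Satisfies.subgroup {G : Type*} [Group G] (h : Satisfies W G) (H : Subgroup G) :
    Satisfies W H :=
  h.of_injective H.subtype H.subtype_injective

theorem Satisfies.quotient {G : Type*} [Group G] (h : Satisfies W G) (N : Subgroup G) [N.Normal] :
    Satisfies W (G ⧸ N) :=
  h.of_surjective (QuotientGroup.mk' N) (QuotientGroup.mk'_surjective N)

theorem Satisfies.pi {ι : Type*} {Q : ι → Type*} [∀ i, Group (Q i)]
    (h : ∀ i, Satisfies W (Q i)) : Satisfies W (∀ i, Q i) := by
  intro w hw f
  funext i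
  have := map_lift (Pi.evalMonoidHom Q i) f w
  simp only [Pi.evalMonoidHom_apply] at this
  rw [this]
  exact h i w hw _

theorem verbal_le_of_satisfies {G : Type*} [Group G] (N : Subgroup G) [N.Normal]
    (h : Satisfies W (G ⧸ N)) : verbal W G ≤ N := by
  intro g hg
  have := map_mem_verbal W (QuotientGroup.mk' N) hg
  rw [(satisfies_iff_verbal_eq_bot _).1 h, Subgroup.mem_bot] at this
  exact (QuotientGroup.eq_one_iff g).1 this

theorem satisfies_quotient_verbal (G : Type*) [Group G] : Satisfies W (G ⧸ verbal W G) := by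
  intro w hw f
  choose g hg using fun k => QuotientGroup.mk'_surjective (verbal W G) (f k)
  have : f = fun k => QuotientGroup.mk' (verbal W G) (g k) := funext fun k => (hg k).symm
  rw [this, ← map_lift]
  exact (QuotientGroup.eq_one_iff _).2 (lift_mem_verbal hw g)

theorem satisfies_laws (A : Type*) [Group A] : Satisfies (laws A) A := fun _ hw f => hw f

theorem rf_of_injective {G H : Type*} [Group G] [Group H] (h : ResiduallyFinite H) (φ : G →* H)
    (hφ : Function.Injective φ) : ResiduallyFinite G := by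
  rw [residuallyFinite_iff_forall_finiteIndexNormalSubgroup]
  intro g hg
  apply hφ
  rw [map_one]
  exact eq_one_iff_forall_finiteIndexNormalSubroup (φ g) fun K ↦ hg (K.comap φ)

theorem rf_pi {ι : Type*} {Q : ι → Type*} [∀ i, Group (Q i)] [∀ i, Finite (Q i)] :
    ResiduallyFinite (∀ i, Q i) := by
  rw [residuallyFinite_iff_exists_finiteIndex]
  intro g hg
  obtain ⟨i, hi⟩ : ∃ i, g i ≠ 1 := by
    by_contra h
    push Not at h
    exact hg (funext h)
  exact ⟨(Pi.evalMonoidHom Q i).ker, Subgroup.finiteIndex_ker _, by simpa using hi⟩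

/-- A residually finite group has, for each nontrivial element, a finite quotient. -/
theorem exists_normal_of_rf {G : Type*} [Group G] (h : ResiduallyFinite G) {g : G} (hg : g ≠ 1) :
    ∃ N : Subgroup G, N.Normal ∧ N.FiniteIndex ∧ g ∉ N := by
  obtain ⟨H, hH⟩ := exists_finiteIndexNormalSubgroup_notMem g hg
  exact ⟨H.toSubgroup, H.isNormal', H.isFiniteIndex', hH⟩

theorem exists_perm_extend {G : Type*} [Group G] (S : Finset G) (a : G) :
    ∃ σ : Equiv.Perm S, ∀ (g : S) (h : a * g ∈ S), σ g = ⟨a * g, h⟩ := by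
  classical
  let T := {g : S // a * g ∈ S}
  obtain ⟨σ, hσ⟩ := Equiv.Perm.exists_extending_pair (α := T) (β := S)
    (f := fun t => t.1) (g := fun t => ⟨a * t.1, t.2⟩) Subtype.val_injective (by
      intro s t hst
      simp only [Subtype.mk.injEq, mul_right_inj] at hst
      exact Subtype.ext (Subtype.ext hst))
  exact ⟨σ, fun g h => hσ ⟨g, h⟩⟩

/-- A nontrivial word has a nontrivial value in some finite group. -/
theorem exists_finite_lift_ne_one {α : Type} {w : FreeGroup α} (hw : w ≠ 1) :
    ∃ (Q : Type) (_ : Group Q) (_ : Finite Q) (f : α → Q), FreeGroup.lift f w ≠ 1 := by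
  classical
  obtain ⟨L, rfl⟩ : ∃ L, FreeGroup.mk L = w := ⟨w.toWord, FreeGroup.mk_toWord⟩
  let S : Finset (FreeGroup α) := (L.tails.map FreeGroup.mk).toFinset
  have hS : ∀ M, M <:+ L → FreeGroup.mk M ∈ S := by
    intro M hM
    simp only [S, List.mem_toFinset, List.mem_map, List.mem_tails]
    exact ⟨M, hM, rfl⟩
  choose σ hσ using fun a : α => exists_perm_extend S (FreeGroup.of a)
  have h1 : (1 : FreeGroup α) ∈ S := hS [] List.nil_suffix
  have key : ∀ (M : List (α × Bool)) (hM : M <:+ L),
      FreeGroup.lift σ (FreeGroup.mk M) ⟨1, h1⟩ = ⟨FreeGroup.mk M, hS M hM⟩ := by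
    intro M
    induction M with
    | nil => intro _; rfl
    | cons x M ih =>
      intro hM
      have hM' : M <:+ L := (List.suffix_cons x M).trans hM
      have e1 : FreeGroup.mk (x :: M) = FreeGroup.mk [x] * FreeGroup.mk M := rfl
      obtain ⟨a, b⟩ := x
      cases b
      · have e2 : FreeGroup.mk [(a, false)] = (FreeGroup.of a)⁻¹ := rfl
        have e3 : FreeGroup.of a * FreeGroup.mk ((a, false) :: M) = FreeGroup.mk M := by
          rw [e1, e2]; group
        have := hσ a ⟨_, hS _ hM⟩ (by simpa only [e3] using hS M hM')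
        simp only [e3] at this
        rw [show FreeGroup.lift σ (FreeGroup.mk ((a, false) :: M)) =
          (σ a)⁻¹ * FreeGroup.lift σ (FreeGroup.mk M) by rw [e1, e2]; simp]
        rw [Equiv.Perm.mul_apply, ih hM', ← this]
        simp
      · have e2 : FreeGroup.mk [(a, true)] = FreeGroup.of a := rfl
        have e3 : FreeGroup.of a * FreeGroup.mk M = FreeGroup.mk ((a, true) :: M) := by
          rw [e1, e2]
        have := hσ a ⟨_, hS _ hM'⟩ (by simpa only [e3] using hS _ hM)
        simp only [e3] at this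
        rw [show FreeGroup.lift σ (FreeGroup.mk ((a, true) :: M)) =
          (σ a) * FreeGroup.lift σ (FreeGroup.mk M) by rw [e1, e2]; simp]
        rw [Equiv.Perm.mul_apply, ih hM', this]
  refine ⟨Equiv.Perm S, inferInstance, inferInstance, σ, fun h => hw ?_⟩
  have := key L List.suffix_rfl
  rw [h] at this
  simpa using this.symm

theorem rf_freeGroup (α : Type) : ResiduallyFinite (FreeGroup α) := by
  apply residuallyFinite_of_forall_exists_finite_monoidHom.{0, 0}
  intro g hg
  obtain ⟨Q, _, _, f, hf⟩ := exists_finite_lift_ne_one hg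
  exact ⟨Q, _, ‹_›, FreeGroup.lift f, hf⟩

/-- Every finite group embeds in a finite group which equals its own verbal subgroup,
provided some law is nontrivial. -/
theorem exists_embed_verbal_top {w₀ : FreeGroup ℕ} (hw : w₀ ∈ W) (hw1 : w₀ ≠ 1)
    (Q : Type) [Group Q] [Finite Q] :
    ∃ (D : Type) (_ : Group D) (_ : Finite D) (ι : Q →* D),
      Function.Injective ι ∧ verbal W D = ⊤ := by
  classical
  obtain ⟨Q₀, _, _, f₀, hf₀⟩ := exists_finite_lift_ne_one hw1
  let E := Q × Q₀ × Multiplicative (ZMod 3)
  have : Fintype E := Fintype.ofFinite E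
  let ρ : E →* Equiv.Perm (E ⊕ E) :=
    (Equiv.Perm.sumCongrHom E E).comp ((MulAction.toPermHom E E).prod (MulAction.toPermHom E E))
  have hρ : ∀ e, ρ e ∈ alternatingGroup (E ⊕ E) := by
    intro e
    simp [ρ, Equiv.Perm.mem_alternatingGroup, Equiv.Perm.sign_sumCongr]
  have hinj : Function.Injective ρ := by
    rw [injective_iff_map_eq_one]
    intro e he
    have := congrArg (fun σ : Equiv.Perm (E ⊕ E) => σ (Sum.inl 1)) he
    simpa [ρ] using this
  let ρ' : E →* alternatingGroup (E ⊕ E) := ρ.codRestrict _ hρ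
  have hinj' : Function.Injective ρ' := by
    intro a b hab
    exact hinj (congrArg Subtype.val hab)
  have hcard : 5 ≤ Nat.card (E ⊕ E) := by
    have h1 : 0 < Nat.card Q := Nat.card_pos
    have h2 : 0 < Nat.card Q₀ := Nat.card_pos
    have h3 : Nat.card E = Nat.card Q * (Nat.card Q₀ * 3) := by
      have h4 : Nat.card (Multiplicative (ZMod 3)) = 3 := by simp
      rw [Nat.card_prod, Nat.card_prod, h4]
    rw [Nat.card_sum, h3]
    nlinarith [Nat.mul_pos h1 h2]
  have := alternatingGroup.isSimpleGroup hcard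
  refine ⟨alternatingGroup (E ⊕ E), inferInstance, inferInstance,
    ρ'.comp (MonoidHom.inl Q _), hinj'.comp (fun a b hab => congrArg Prod.fst hab), ?_⟩
  refine (verbal_normal W _).eq_bot_or_eq_top.resolve_left fun hbot => hf₀ ?_
  have hs : Satisfies W Q₀ := ((satisfies_iff_verbal_eq_bot _).2 hbot).of_injective
    (ρ'.comp ((MonoidHom.inr Q _).comp (MonoidHom.inl Q₀ _)))
    (hinj'.comp (fun a b hab => congrArg (fun e : E => e.2.1) hab))
  exact hs w₀ hw f₀

end Pool.Agent.Lib.MP_9fd99d_al
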