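import Mathlib

/-!
Definitions for MP_9fd99d_al: laws, varieties given by a set of laws, verbal subgroups.
-/

namespace Pool.Agent.Lib.MP_9fd99d_al

/-- The group `G` satisfies every law `w = 1` with `w ∈ W`, i.e. `G` lies in the variety
defined by `W`. -/
def Satisfies (W : Set (FreeGroup ℕ)) (G : Type*) [Group G] : Prop :=
  ∀ w ∈ W, ∀ f : ℕ → G, FreeGroup.lift f w = 1

/-- The set of all laws of the group `A`. The groups satisfying them form the variety
generated by `A`. -/
def laws (A : Type*) [Group A] : Set (FreeGroup ℕ) :=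
  {w | ∀ f : ℕ → A, FreeGroup.lift f w = 1}

/-- The verbal subgroup: generated by all values in `G` of the words in `W`. -/
def verbal (W : Set (FreeGroup ℕ)) (G : Type*) [Group G] : Subgroup G :=
  Subgroup.closure {g | ∃ w ∈ W, ∃ f : ℕ → G, FreeGroup.lift f w = g}

theorem map_lift {α G H : Type*} [Group G] [Group H] (φ : G →* H) (f : α → G)
    (w : FreeGroup α) : φ (FreeGroup.lift f w) = FreeGroup.lift (fun k => φ (f k)) w := by
  have : φ.comp (FreeGroup.lift f) = FreeGroup.lift (fun k => φ (f k)) := by
    ext k; simp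
  exact DFunLike.congr_fun this w

theorem map_verbal_le (W : Set (FreeGroup ℕ)) {G H : Type*} [Group G] [Group H] (φ : G →* H) :
    (verbal W G).map φ ≤ verbal W H := by
  rw [verbal, MonoidHom.map_closure, Subgroup.closure_le]
  rintro _ ⟨g, ⟨w, hw, f, rfl⟩, rfl⟩
  exact Subgroup.subset_closure ⟨w, hw, fun k => φ (f k), (map_lift φ f w).symm⟩

theorem map_mem_verbal (W : Set (FreeGroup ℕ)) {G H : Type*} [Group G] [Group H] (φ : G →* H)
    {g : G} (hg : g ∈ verbal W G) : φ g ∈ verbal W H :=
  map_verbal_le W φ ⟨g, hg, rfl⟩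

/-- The verbal subgroup is normal. -/
instance verbal_normal (W : Set (FreeGroup ℕ)) (G : Type*) [Group G] : (verbal W G).Normal where
  conj_mem n hn g := by
    simpa using map_mem_verbal W (MulAut.conj g).toMonoidHom hn

end Pool.Agent.Lib.MP_9fd99d_al
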