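import Pool.Agent.Lib.MP_9fd99d_al.Basic

namespace Pool.Agent.Lib.MP_9fd99d_al

open Group Subgroup
open scoped commutatorElement

/-- `M` is the monolith of `Q`: the least nontrivial normal subgroup. -/
structure IsMonolith {Q : Type*} [Group Q] (M : Subgroup Q) : Prop where
  normal : M.Normal
  ne_bot : M ≠ ⊥
  le : ∀ N : Subgroup Q, N.Normal → N ≠ ⊥ → M ≤ N

/-- The centre meets the derived subgroup trivially. -/
def ZC (G : Type*) [Group G] : Prop := ∀ a ∈ center G, a ∈ commutator G → a = 1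

/-- All subgroups that are `p`-groups for some prime `p` are commutative. -/
def AGroup (G : Type*) [Group G] : Prop :=
  ∀ p : ℕ, p.Prime → ∀ P : Subgroup G, IsPGroup p P → ∀ a ∈ P, ∀ b ∈ P, a * b = b * a

theorem exists_monolith_quotient {G : Type*} [Group G] [Finite G] {a : G} (ha : a ≠ 1) :
    ∃ (N : Subgroup G) (_ : N.Normal), a ∉ N ∧ ∃ M : Subgroup (G ⧸ N), IsMonolith M := by
  obtain ⟨N, hN⟩ := exists_maximal_of_wellFoundedGT (fun N : Subgroup G => N.Normal ∧ a ∉ N)
    ⟨⊥, inferInstance, by simpa using ha⟩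
  obtain ⟨⟨hNn, haN⟩, hmax⟩ := hN
  refine ⟨N, hNn, haN, normalClosure {(a : G ⧸ N)}, normalClosure_normal, ?_, ?_⟩
  · intro h
    have : (a : G ⧸ N) ∈ normalClosure {(a : G ⧸ N)} := subset_normalClosure rfl
    rw [h, mem_bot] at this
    exact haN ((QuotientGroup.eq_one_iff a).1 this)
  · intro K hK hK0
    apply normalClosure_le_normal
    rw [Set.singleton_subset_iff]
    by_contra haK
    have h1 : N ≤ K.comap (QuotientGroup.mk' N) := by
      intro x hx
      rw [mem_comap, QuotientGroup.mk'_apply, (QuotientGroup.eq_one_iff x).2 hx]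
      exact K.one_mem
    have h2 := hmax (y := K.comap (QuotientGroup.mk' N)) ⟨hK.comap _, haK⟩ h1
    apply hK0
    rw [eq_bot_iff]
    intro y hy
    obtain ⟨x, rfl⟩ := QuotientGroup.mk'_surjective N y
    exact (QuotientGroup.eq_one_iff x).2 (h2 hy)

theorem card_le_of_monolith {Q : Type*} [Group Q] [Finite Q] {M : Subgroup Q}
    (hM : IsMonolith M) {e : ℕ} (he0 : 0 < e) (he : ∀ g : Q, g ^ e = 1) {B : ℕ}
    (hB : (centralizer (M : Set Q)).index ≤ B) (hZ : ZC (centralizer (M : Set Q))) :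
    Nat.card Q ≤ e ^ B * B := by
  classical
  have := hM.normal
  set C := centralizer (M : Set Q) with hC
  have hCn : C.Normal := inferInstance
  rw [← C.card_mul_index]
  refine Nat.mul_le_mul ?_ hB
  by_cases hC0 : C = ⊥
  · rw [hC0, card_bot]
    exact Nat.pow_pos he0
  have hMC : M ≤ C := hM.le C hCn hC0
  obtain ⟨⟨a, haM⟩, ha1⟩ := ne_bot_iff_exists_ne_one.1 hM.ne_bot
  have ha1' : a ≠ 1 := fun h => ha1 (Subtype.ext h)
  have hcomm : ⁅C, C⁆ = ⊥ := by
    by_contra hne
    have h1 : M ≤ ⁅C, C⁆ := hM.le _ inferInstance hne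
    have h2 := h1 haM
    rw [← map_subtype_commutator] at h2
    obtain ⟨b, hb, hba⟩ := h2
    have hb1 : b = 1 := by
      apply hZ b _ hb
      rw [mem_center_iff]
      intro c
      apply Subtype.ext
      have := c.2 a haM
      simp only [coe_subtype] at hba
      simp only [coe_mul, hba]
      exact this.symm
    apply ha1'
    rw [← hba, hb1]; rfl
  have hcomm' : IsMulCommutative C := commutator_self_eq_bot_iff.1 hcomm
  let _ : CommGroup C := { (inferInstance : Group C) with mul_comm := hcomm'.is_comm.comm }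
  have : NeZero (Monoid.exponent C) := ⟨Monoid.exponent_ne_zero_of_finite⟩
  obtain ⟨χ, hχ⟩ := CommGroup.exists_apply_ne_one_of_hasEnoughRootsOfUnity C ℂ
    (a := ⟨a, hMC haM⟩) (fun h => ha1' (congrArg Subtype.val h))
  have : NeZero e := ⟨he0.ne'⟩
  have hconj : ∀ (g : Q) (c : C), g⁻¹ * c * g ∈ C := fun g c => by
    simpa using hCn.conj_mem c c.2 g⁻¹
  have hroot : ∀ c : C, χ c ∈ rootsOfUnity e ℂ := by
    intro c
    rw [mem_rootsOfUnity, ← map_pow]
    have : c ^ e = 1 := Subtype.ext (by simpa using he c)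
    rw [this, map_one]
  let Φ : C → (Q ⧸ C → rootsOfUnity e ℂ) := fun c q =>
    ⟨χ ⟨q.out⁻¹ * c * q.out, hconj _ _⟩, hroot _⟩
  -- the core of the kernel of the character
  let K : Subgroup Q := (χ.ker.map C.subtype).normalCore
  have hK : K = ⊥ := by
    by_contra hne
    have h1 : a ∈ χ.ker.map C.subtype := normalCore_le _ (hM.le K inferInstance hne haM)
    obtain ⟨b, hb, hba⟩ := h1
    apply hχ
    have : b = ⟨a, hMC haM⟩ := Subtype.ext hba
    rw [← this]; exact hb
  have hΦ : Function.Injective Φ := by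
    intro c d hcd
    have hmem : ((c * d⁻¹ : C) : Q) ∈ K := by
      intro g
      -- write `g⁻¹ = r * x` with `r` the chosen representative and `x ∈ C`
      obtain ⟨x, hx⟩ := QuotientGroup.mk_out_eq_mul C g⁻¹
      have h1 := congrFun hcd (QuotientGroup.mk g⁻¹)
      simp only [Φ, Subtype.mk.injEq] at h1
      set r := (QuotientGroup.mk g⁻¹ : Q ⧸ C).out
      have h2 : χ ⟨r⁻¹ * (c * d⁻¹ : C) * r, hconj _ _⟩ = 1 := by
        have : (⟨r⁻¹ * (c * d⁻¹ : C) * r, hconj _ _⟩ : C) =
            ⟨r⁻¹ * c * r, hconj _ _⟩ * (⟨r⁻¹ * d * r, hconj _ _⟩ : C)⁻¹ := by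
          apply Subtype.ext
          simp only [coe_mul, InvMemClass.coe_inv]
          group
        rw [this, map_mul, map_inv, h1, mul_inv_cancel]
      refine ⟨x * ⟨r⁻¹ * (c * d⁻¹ : C) * r, hconj _ _⟩ * x⁻¹, ?_, ?_⟩
      · simp only [SetLike.mem_coe, MonoidHom.mem_ker, map_mul, map_inv, h2, mul_one,
          mul_inv_cancel]
      · simp only [coe_subtype, coe_mul, InvMemClass.coe_inv, hx]
        group
    rw [hK, mem_bot] at hmem
    have : c * d⁻¹ = 1 := Subtype.ext hmem
    exact mul_inv_eq_one.1 this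
  calc Nat.card C ≤ Nat.card (Q ⧸ C → rootsOfUnity e ℂ) := Nat.card_le_card_of_injective Φ hΦ
    _ = e ^ C.index := by rw [Nat.card_fun, Complex.card_rootsOfUnity]; rfl
    _ ≤ e ^ B := Nat.pow_le_pow_right he0 hB

theorem zc_of_agroup {G : Type*} [Group G] [Finite G] (h : AGroup G) : ZC G := by
  intro a ha ha'
  by_contra ha1
  have hord : orderOf a ≠ 1 := by simpa using ha1
  obtain ⟨p, hp, k, hk⟩ := Nat.exists_prime_and_dvd hord
  have : Fact p.Prime := ⟨hp⟩
  have hpos : 0 < orderOf a := orderOf_pos a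
  have hk0 : k ≠ 0 := by rintro rfl; omega
  set b := a ^ k with hb
  have hbo : orderOf b = p := by
    rw [hb, orderOf_pow' a hk0, hk, Nat.gcd_mul_left_left, Nat.mul_div_cancel _ (Nat.pos_of_ne_zero hk0)]
  have hbc : b ∈ center G := pow_mem ha k
  have hbd : b ∈ commutator G := pow_mem ha' k
  have hpg : IsPGroup p (zpowers b) := IsPGroup.of_card (n := 1) (by rw [Nat.card_zpowers, hbo, pow_one])
  obtain ⟨P, hP⟩ := hpg.exists_le_sylow
  have hbP : b ∈ (P : Subgroup G) := hP (mem_zpowers b)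
  let _ : CommGroup (P : Subgroup G) := { (inferInstance : Group (P : Subgroup G)) with
    mul_comm := fun x y => Subtype.ext (h p hp P P.isPGroup' x x.2 y y.2) }
  let τ : G →* (P : Subgroup G) := MonoidHom.transfer (MonoidHom.id (P : Subgroup G))
  have h1 : τ b = 1 := Abelianization.commutator_subset_ker τ hbd
  have h2 := MonoidHom.transfer_eq_pow (MonoidHom.id (P : Subgroup G)) b (fun k g₀ _ => by
    have := mem_center_iff.1 (pow_mem hbc k) g₀
    rw [mul_assoc, ← this]; group)
  have h3 : b ^ (P : Subgroup G).index = 1 := by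
    have := congrArg Subtype.val (h2.symm.trans h1)
    simpa using this
  have h4 := orderOf_dvd_of_pow_eq_one h3
  rw [hbo] at h4
  exact P.not_dvd_index h4

theorem comm_of_zc_of_nilpotent {G : Type*} [Group G] (h : ZC G) (hn : IsNilpotent G) :
    commutator G = ⊥ := by
  obtain ⟨n, hn⟩ := Subgroup.nilpotent_iff_lowerCentralSeries.1 hn
  have key : ∀ n, Subgroup.lowerCentralSeries (⊤ : Subgroup G) (n + 1) = ⊥ → commutator G = ⊥ := by
    intro n
    induction n with
    | zero => exact fun h => h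
    | succ n ih =>
      intro h2
      apply ih
      rw [Subgroup.lowerCentralSeries_succ, commutator_top_right_eq_bot_iff_le_center] at h2
      rw [eq_bot_iff]
      intro x hx
      have hx' : x ∈ Subgroup.lowerCentralSeries (⊤ : Subgroup G) 1 :=
        Subgroup.lowerCentralSeries_antitone ⊤ (by omega : 1 ≤ n + 1) hx
      exact h x (h2 hx) hx'
  apply key n
  rw [eq_bot_iff, ← hn]
  exact Subgroup.lowerCentralSeries_antitone ⊤ (Nat.le_succ n)

theorem sylow_comm_of_zc {G : Type*} [Group G] [Finite G] (h : ∀ P : Subgroup G, ZC P)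
    (p : ℕ) [Fact p.Prime] (P : Sylow p G) : IsMulCommutative (P : Subgroup G) :=
  (commutator_eq_bot_iff _).1 (comm_of_zc_of_nilpotent (h P) P.isPGroup'.isNilpotent)

theorem agroup_of_sylow {G : Type*} [Group G]
    (h : ∀ (p : ℕ) [Fact p.Prime] (P : Sylow p G), IsMulCommutative (P : Subgroup G)) :
    AGroup G := by
  intro p hp P hP a ha b hb
  have : Fact p.Prime := ⟨hp⟩
  obtain ⟨S, hS⟩ := hP.exists_le_sylow
  exact congrArg Subtype.val ((h p S).is_comm.comm ⟨a, hS ha⟩ ⟨b, hS hb⟩)

theorem AGroup.of_injective {G H : Type*} [Group G] [Group H] (h : AGroup H) (φ : G →* H)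
    (hφ : Function.Injective φ) : AGroup G := by
  intro p hp P hP a ha b hb
  apply hφ
  rw [map_mul, map_mul]
  exact h p hp (P.map φ) (hP.map φ) _ ⟨a, ha, rfl⟩ _ ⟨b, hb, rfl⟩

theorem AGroup.pi {ι A : Type*} [Group A] (h : AGroup A) : AGroup (ι → A) := by
  intro p hp P hP a ha b hb
  funext i
  exact h p hp (P.map (Pi.evalMonoidHom (fun _ => A) i)) (hP.map _) _ ⟨a, ha, rfl⟩ _ ⟨b, hb, rfl⟩

theorem AGroup.of_surjective {G H : Type*} [Group G] [Group H] [Finite G] (h : AGroup G)
    (φ : G →* H) (hφ : Function.Surjective φ) : AGroup H := by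
  apply agroup_of_sylow
  intro p hp P
  obtain ⟨S, rfl⟩ := Sylow.mapSurjective_surjective hφ p P
  refine ⟨⟨?_⟩⟩
  rintro ⟨_, a, ha, rfl⟩ ⟨_, b, hb, rfl⟩
  apply Subtype.ext
  simp only [coe_mul, ← map_mul]
  rw [h p hp.out S S.isPGroup' a ha b hb]

/-- A finite group of order at most `B` embeds in the symmetric group on `B` letters. -/
theorem exists_embed_perm {Q : Type*} [Group Q] [Finite Q] {B : ℕ} (h : Nat.card Q ≤ B) :
    ∃ φ : Q →* Equiv.Perm (Fin B), Function.Injective φ := by
  classical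
  have : Fintype Q := Fintype.ofFinite Q
  obtain ⟨e⟩ : Nonempty (Q ↪ Fin B) :=
    Function.Embedding.nonempty_of_card_le (by simpa using h)
  exact ⟨(Equiv.Perm.viaEmbeddingHom e).comp (MulAction.toPermHom Q Q),
    (Equiv.Perm.viaEmbeddingHom_injective e).comp MulAction.toPerm_injective⟩

/-- One step of the nested commutator construction. -/
theorem exists_conj_commutator_ne_one {Q : Type*} [Group Q] {M : Subgroup Q} (hM : IsMonolith M)
    {b : Q} (hb1 : b ≠ 1) {z : Q} (hz : z ∉ centralizer (M : Set Q)) :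
    ∃ g : Q, ⁅g * b * g⁻¹, z⁆ ≠ 1 := by
  by_contra hcon
  push Not at hcon
  apply hz
  have h1 : normalClosure {b} ≠ ⊥ := by
    intro h
    have : b ∈ normalClosure {b} := subset_normalClosure rfl
    rw [h, mem_bot] at this
    exact hb1 this
  have h2 : M ≤ normalClosure {b} := hM.le _ normalClosure_normal h1
  have h3 : normalClosure {b} ≤ (centralizer {z}).normalCore := by
    apply normalClosure_le_normal
    rw [Set.singleton_subset_iff]
    intro g
    rw [mem_centralizer_iff]
    rintro _ rfl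
    exact (commutatorElement_eq_one_iff_mul_comm.1 (hcon g)).symm
  rw [mem_centralizer_iff]
  intro m hm
  have := normalCore_le _ (h3 (h2 hm))
  rw [mem_centralizer_iff] at this
  exact (this z rfl).symm

theorem exists_nested_commutator {Q : Type*} [Group Q] {M : Subgroup Q} (hM : IsMonolith M)
    (n : ℕ) : ∀ z : ℕ → Q, (∀ t < n, z t ∉ centralizer (M : Set Q)) →
    ∃ a g : ℕ → Q, a 0 ∈ M ∧ a 0 ≠ 1 ∧ ∀ t < n, a t = ⁅g t * a (t + 1) * (g t)⁻¹, z t⁆ := by
  induction n with
  | zero =>
    intro z _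
    obtain ⟨⟨a, haM⟩, ha1⟩ := ne_bot_iff_exists_ne_one.1 hM.ne_bot
    exact ⟨fun _ => a, fun _ => 1, haM, fun h => ha1 (Subtype.ext h), by simp⟩
  | succ n ih =>
    intro z hz
    obtain ⟨a, g, haM, ha1, hrec⟩ := ih (fun t => z (t + 1)) (fun t ht => hz (t + 1) (by omega))
    obtain ⟨g₀, hg₀⟩ := exists_conj_commutator_ne_one hM ha1 (hz 0 (by omega))
    refine ⟨fun t => Nat.casesOn t ⁅g₀ * a 0 * g₀⁻¹, z 0⁆ a, fun t => Nat.casesOn t g₀ g, ?_,
      hg₀, ?_⟩
    · have := hM.normal
      exact commutator_le_left M ⊤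
        (commutator_mem_commutator (hM.normal.conj_mem _ haM g₀) (mem_top _))
    · intro t ht
      cases t with
      | zero => rfl
      | succ t => exact hrec t (by omega)

end Pool.Agent.Lib.MP_9fd99d_al
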