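import Pool.Agent.Lib.MP_9fd99d_al.FiniteGroups

/-!
If a proper variety has property (RF), then reduced products of its finite members are
residually finite.
-/

namespace Pool.Agent.Lib.MP_9fd99d_al

open Group Subgroup Filter
open scoped commutatorElement IsMulCommutative

/-- Property (RF) for groups in `Type`. -/
def HasRF (W : Set (FreeGroup ℕ)) : Prop :=
  ∀ (G : Type) [Group G], ResiduallyFinite G → ResiduallyFinite (G ⧸ verbal W G)

/-- Reduced products of finite groups of the variety are residually finite. -/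
def RedRF (W : Set (FreeGroup ℕ)) : Prop :=
  ∀ (Q : ℕ → Type) [∀ i, Group (Q i)] [∀ i, Finite (Q i)], (∀ i, Satisfies W (Q i)) →
    ∀ a : ∀ i, Q i, (∀ i, a i ≠ 1) →
      ∃ N : Subgroup (∀ i, Q i), N.Normal ∧ N.FiniteIndex ∧ a ∉ N ∧
        ∀ g : ∀ i, Q i, (∀ᶠ i in atTop, g i = 1) → g ∈ N

variable {W : Set (FreeGroup ℕ)}

theorem redRF_of_hasRF (h : HasRF W) {w₀ : FreeGroup ℕ} (hw : w₀ ∈ W) (hw1 : w₀ ≠ 1) :
    RedRF W := by
  classical
  intro Q _ _ hQ a ha
  choose D instD finD ι hι hD using fun i => exists_embed_verbal_top hw hw1 (Q i)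
  let G : Subgroup (∀ i, D i) :=
    { carrier := {g | ∀ᶠ i in atTop, g i ∈ (ι i).range}
      mul_mem' := fun {x y} hx hy => (hx.and hy).mono fun i hi => mul_mem hi.1 hi.2
      one_mem' := Eventually.of_forall fun i => one_mem _
      inv_mem' := fun {x} hx => hx.mono fun i hi => inv_mem hi }
  let T : Subgroup G :=
    { carrier := {g | ∀ᶠ i in atTop, g.1 i = 1}
      mul_mem' := fun {x y} hx hy => (hx.and hy).mono fun i hi => by
        simp [hi.1, hi.2]
      one_mem' := Eventually.of_forall fun i => rfl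
      inv_mem' := fun {x} hx => hx.mono fun i hi => by simp [hi] }
  have hTn : T.Normal := ⟨fun n hn g => hn.mono fun i hi => by simp [hi]⟩
  let J : (∀ i, Q i) →* G :=
    (MonoidHom.pi fun i => (ι i).comp (Pi.evalMonoidHom Q i)).codRestrict G
      fun q => Eventually.of_forall fun i => ⟨q i, rfl⟩
  have hJ : ∀ q i, (J q).1 i = ι i (q i) := fun q i => rfl
  have hsurj : Function.Surjective ((QuotientGroup.mk' T).comp J) := by
    intro y
    obtain ⟨g, rfl⟩ := QuotientGroup.mk'_surjective T y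
    refine ⟨fun i => if h : g.1 i ∈ (ι i).range then h.choose else 1, ?_⟩
    rw [MonoidHom.comp_apply, QuotientGroup.mk'_apply, QuotientGroup.mk'_apply, QuotientGroup.eq]
    refine g.2.mono fun i hi => ?_
    simp only [coe_mul, InvMemClass.coe_inv, Pi.mul_apply, Pi.inv_apply, hJ, hi, dif_pos]
    rw [hi.choose_spec, inv_mul_cancel]
  have hVT : verbal W G ≤ T :=
    verbal_le_of_satisfies T ((Satisfies.pi hQ).of_surjective _ hsurj)
  have hsingle : ∀ i (d : D i), Pi.mulSingle i d ∈ G := fun i d =>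
    (eventually_ne_atTop i).mono fun j hj => by
      rw [Pi.mulSingle_eq_of_ne hj]; exact one_mem _
  have hTV : T ≤ verbal W G := by
    have key : ∀ (n : ℕ) (g : G), (∀ i ≥ n, g.1 i = 1) → g ∈ verbal W G := by
      intro n
      induction n with
      | zero =>
        intro g hg
        have : g = 1 := Subtype.ext (funext fun i => hg i (Nat.zero_le i))
        rw [this]; exact one_mem _
      | succ n ih =>
        intro g hg
        let s : D n →* G := (MonoidHom.mulSingle D n).codRestrict G (hsingle n)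
        have h1 : s (g.1 n) ∈ verbal W G := map_mem_verbal W s (by rw [hD n]; exact mem_top _)
        have h2 : g * (s (g.1 n))⁻¹ ∈ verbal W G := by
          apply ih
          intro i hi
          change g.1 i * ((Pi.mulSingle n (g.1 n) : ∀ i, D i) i)⁻¹ = 1
          rcases hi.eq_or_lt with rfl | hlt
          · simp
          · rw [Pi.mulSingle_eq_of_ne hlt.ne', hg i hlt]; simp
        simpa using mul_mem h2 h1
    intro g hg
    obtain ⟨n, hn⟩ := eventually_atTop.1 hg
    exact key n g hn
  have hGrf : ResiduallyFinite G := rf_of_injective rf_pi G.subtype G.subtype_injective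
  have hne : (QuotientGroup.mk' (verbal W G)) (J a) ≠ 1 := by
    intro h1
    have h2 : J a ∈ T := hVT ((QuotientGroup.eq_one_iff _).1 h1)
    obtain ⟨i, hi⟩ := Eventually.exists h2
    rw [hJ, ← map_one (ι i)] at hi
    exact ha i (hι i hi)
  obtain ⟨N, hN1, hN2, hN3⟩ := exists_normal_of_rf (h G hGrf) hne
  refine ⟨N.comap ((QuotientGroup.mk' (verbal W G)).comp J), hN1.comap _, ?_, hN3, ?_⟩
  · exact ((⟨N, hN1, hN2⟩ : FiniteIndexNormalSubgroup _).comap _).isFiniteIndex'
  · intro g hg
    have h1 : J g ∈ T := hg.mono fun i hi => by rw [hJ, hi, map_one]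
    rw [Subgroup.mem_comap, MonoidHom.comp_apply, QuotientGroup.mk'_apply,
      (QuotientGroup.eq_one_iff _).2 (hTV h1)]
    exact one_mem _

theorem mem_of_eventually_eq {Q : ℕ → Type} [∀ i, Group (Q i)] {N : Subgroup (∀ i, Q i)}
    (hN : ∀ g : ∀ i, Q i, (∀ᶠ i in atTop, g i = 1) → g ∈ N) {x y : ∀ i, Q i}
    (hxy : ∀ᶠ i in atTop, x i = y i) (hy : y ∈ N) : x ∈ N := by
  have : x * y⁻¹ ∈ N := hN _ (hxy.mono fun i hi => by simp [hi])
  simpa using mul_mem this hy

theorem exists_exponent (h : RedRF W) :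
    ∃ e : ℕ, 0 < e ∧ ∀ (G : Type) [Group G], Satisfies W G → ∀ g : G, g ^ e = 1 := by
  by_cases hZ : Satisfies W (Multiplicative ℤ)
  · exfalso
    have hne : ∀ i : ℕ, NeZero (2 * i.factorial) := fun i =>
      ⟨(Nat.mul_pos two_pos i.factorial_pos).ne'⟩
    obtain ⟨N, hN1, hN2, hN3, hN4⟩ := h (fun i => Multiplicative (ZMod (2 * i.factorial)))
      (fun i => hZ.of_surjective
        (AddMonoidHom.toMultiplicative (Int.castAddHom (ZMod (2 * i.factorial))))
        (fun x => by
          obtain ⟨k, hk⟩ := ZMod.intCast_surjective x.toAdd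
          exact ⟨Multiplicative.ofAdd k, by simp [hk]⟩))
      (fun i => Multiplicative.ofAdd ((i.factorial : ℕ) : ZMod (2 * i.factorial)))
      (fun i hi => by
        have h1 : ((i.factorial : ℕ) : ZMod (2 * i.factorial)) = 0 := by simpa using hi
        rw [ZMod.natCast_eq_zero_iff] at h1
        have := Nat.le_of_dvd i.factorial_pos h1
        have := i.factorial_pos
        omega)
    apply hN3
    have hk : 0 < N.index := Nat.pos_of_ne_zero hN2.index_ne_zero
    refine mem_of_eventually_eq hN4 ?_ (N.pow_index_mem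
      (fun i => Multiplicative.ofAdd ((i.factorial / N.index : ℕ) : ZMod (2 * i.factorial))))
    refine (eventually_ge_atTop N.index).mono fun i hi => ?_
    rw [Pi.pow_apply, ← ofAdd_nsmul, nsmul_eq_mul, ← Nat.cast_mul,
      Nat.mul_div_cancel' (Nat.dvd_factorial hk hi)]
  · rw [satisfies_iff_verbal_eq_bot] at hZ
    obtain ⟨⟨d, hd⟩, hd1⟩ := ne_bot_iff_exists_ne_one.1 hZ
    have hd0 : d.toAdd ≠ 0 := fun h => hd1 (Subtype.ext (by simpa using h))
    refine ⟨d.toAdd.natAbs, Int.natAbs_pos.2 hd0, fun G _ hG g => ?_⟩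
    have := map_mem_verbal W (zpowersHom G g) hd
    rw [(satisfies_iff_verbal_eq_bot G).1 hG, Subgroup.mem_bot, zpowersHom_apply] at this
    rwa [← zpow_natCast, Int.natCast_natAbs, zpow_abs_eq_one]

theorem exists_index_bound (h : RedRF W) :
    ∃ B : ℕ, ∀ (Q : Type) [Group Q] [Finite Q], Satisfies W Q → ∀ M : Subgroup Q, IsMonolith M →
      (centralizer (M : Set Q)).index ≤ B := by
  classical
  by_contra hcon
  push Not at hcon
  choose Q instQ finQ hQ M hM hidx using fun i => hcon (2 * i)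
  have hx : ∀ i, ∃ x : ℕ → Q i, ∀ j l, j < l → l < 2 * i →
      (x j)⁻¹ * x l ∉ centralizer (M i : Set (Q i)) := by
    intro i
    have : Fintype (Q i ⧸ centralizer (M i : Set (Q i))) := Fintype.ofFinite _
    obtain ⟨e⟩ : Nonempty (Fin (2 * i) ↪ (Q i ⧸ centralizer (M i : Set (Q i)))) :=
      Function.Embedding.nonempty_of_card_le (by
        have := (hidx i).le
        rwa [index, Nat.card_eq_fintype_card, ← Fintype.card_fin (2 * i)] at this)
    refine ⟨fun j => if h : j < 2 * i then (e ⟨j, h⟩).out else 1, fun j l hjl hl hmem => ?_⟩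
    have hj : j < 2 * i := hjl.trans hl
    simp only [hj, hl, dif_pos] at hmem
    rw [← QuotientGroup.eq, QuotientGroup.out_eq', QuotientGroup.out_eq'] at hmem
    have := congrArg Fin.val (e.injective hmem)
    simp only at this
    omega
  choose x hx using hx
  let z : ∀ i, ℕ → Q i := fun i t => (x i t.unpair.1)⁻¹ * x i (t.unpair.1 + t.unpair.2 + 1)
  have hz : ∀ i, ∀ t < i, z i t ∉ centralizer (M i : Set (Q i)) := by
    intro i t ht
    have h1 := Nat.unpair_left_le t
    have h2 := Nat.unpair_right_le t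
    exact hx i _ _ (by omega) (by omega)
  choose a g _ ha1 hrec using fun i => exists_nested_commutator (hM i) i (z i) (hz i)
  obtain ⟨N, hN1, hN2, hN3, hN4⟩ := h Q hQ (fun i => a i 0) ha1
  have hrec' : ∀ t, ∀ᶠ i in atTop, (fun i => a i t) i =
      (⁅(fun i => g i t) * (fun i => a i (t + 1)) * (fun i => g i t)⁻¹, fun i => z i t⁆ :
        ∀ i, Q i) i :=
    fun t => (eventually_gt_atTop t).mono fun i hi => hrec i t hi
  have hdown : ∀ t, (fun i => a i t) ∈ N → (fun i => a i 0) ∈ N := by
    intro t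
    induction t with
    | zero => exact id
    | succ t ih =>
      intro ht
      apply ih
      exact mem_of_eventually_eq hN4 (hrec' t) (commutator_le_left N ⊤
        (commutator_mem_commutator (hN1.conj_mem _ ht _) (mem_top _)))
  obtain ⟨j, l, hjl, hjl'⟩ := Finite.exists_ne_map_eq_of_infinite
    (fun j : ℕ => (QuotientGroup.mk (fun i => x i j) : _ ⧸ N))
  wlog hlt : j < l generalizing j l
  · exact this l j hjl.symm hjl'.symm (by omega)
  apply hN3
  apply hdown (Nat.pair j (l - j - 1))
  refine mem_of_eventually_eq hN4 (hrec' _) (commutator_le_right ⊤ N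
    (commutator_mem_commutator (mem_top _) ?_))
  rw [QuotientGroup.eq] at hjl'
  have e : j + (l - j - 1) + 1 = l := by omega
  simp only [z, Nat.unpair_pair, e]
  exact hjl'

/-- The subgroup of `Q ^ n` of tuples of central elements with product one. -/
def cpKer (Q : Type) [Group Q] (n : ℕ) : Subgroup (Fin n → Q) :=
  (MonoidHom.ker (∏ j : Fin n, Pi.evalMonoidHom (fun _ => center Q) j)).map
    (MonoidHom.pi fun j => (center Q).subtype.comp (Pi.evalMonoidHom (fun _ => center Q) j))

theorem mem_cpKer {Q : Type} [Group Q] {n : ℕ} {x : Fin n → Q} :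
    x ∈ cpKer Q n ↔ ∃ z : Fin n → center Q, ∏ j, z j = 1 ∧ ∀ j, (z j : Q) = x j := by
  simp [cpKer, funext_iff]

instance cpKer_normal (Q : Type) [Group Q] (n : ℕ) : (cpKer Q n).Normal where
  conj_mem x hx g := by
    obtain ⟨z, hz, hzx⟩ := mem_cpKer.1 hx
    refine mem_cpKer.2 ⟨z, hz, fun j => ?_⟩
    have := mem_center_iff.1 (z j).2 (g j)
    simp only [Pi.mul_apply, Pi.inv_apply, ← hzx j, this, mul_inv_cancel_right]

theorem zc_of_redRF (h : RedRF W) (Q : Type) [Group Q] [Finite Q] (hQ : Satisfies W Q) :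
    ZC Q := by
  classical
  intro a ha ha'
  by_contra ha1
  obtain ⟨N, hN1, hN2, hN3, hN4⟩ := h (fun i => (Fin (i + 1) → Q) ⧸ cpKer Q (i + 1))
    (fun i => (Satisfies.pi fun _ => hQ).quotient _)
    (fun i => QuotientGroup.mk (Pi.mulSingle 0 a))
    (fun i hi => by
      obtain ⟨z, hz, hzx⟩ := mem_cpKer.1 ((QuotientGroup.eq_one_iff _).1 hi)
      have : z = Pi.mulSingle 0 ⟨a, ha⟩ := by
        funext j
        apply Subtype.ext
        rw [hzx j]
        by_cases hj : j = 0
        · subst hj; simp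
        · simp [Pi.mulSingle_eq_of_ne hj]
      rw [this] at hz
      simp only [Finset.prod_pi_mulSingle', Finset.mem_univ, if_true] at hz
      exact ha1 (congrArg Subtype.val hz))
  let φ : ℕ → Q →* ∀ i, (Fin (i + 1) → Q) ⧸ cpKer Q (i + 1) := fun j =>
    MonoidHom.pi fun i => if h : j < i + 1 then
      (QuotientGroup.mk' _).comp (MonoidHom.mulSingle (fun _ => Q) ⟨j, h⟩) else 1
  have hφ : ∀ j i (h : j < i + 1) (x : Q),
      φ j x i = QuotientGroup.mk (Pi.mulSingle (⟨j, h⟩ : Fin (i + 1)) x) := by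
    intro j i h x
    simp only [φ, MonoidHom.pi_apply, h, dif_pos]
    rfl
  have hφ' : ∀ j i (_ : ¬ j < i + 1) (x : Q), φ j x i = 1 := by
    intro j i h x
    simp only [φ, MonoidHom.pi_apply, h, dif_neg, not_false_eq_true, MonoidHom.one_apply]
  have hcomm : ∀ j l, j ≠ l → ∀ x y, Commute (φ j x) (φ l y) := by
    intro j l hjl x y
    funext i
    simp only [Pi.mul_apply]
    by_cases hj : j < i + 1
    · by_cases hl : l < i + 1
      · rw [hφ j i hj, hφ l i hl, ← QuotientGroup.mk_mul, ← QuotientGroup.mk_mul]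
        congr 1
        exact Pi.mulSingle_commute (f := fun _ => Q) (by simpa using hjl) x y
      · rw [hφ' l i hl]; simp
    · rw [hφ' j i hj]; simp
  obtain ⟨j, l, hjl, hjl'⟩ := Finite.exists_ne_map_eq_of_infinite
    (fun j : ℕ => (fun x : Q => (QuotientGroup.mk (φ j x) : _ ⧸ N)))
  have hker : commutator Q ≤ ((QuotientGroup.mk' N).comp (φ j)).ker := by
    rw [_root_.commutator_def, commutator_le]
    intro x _ y _
    rw [MonoidHom.mem_ker, map_commutatorElement]
    have h1 : ((QuotientGroup.mk' N).comp (φ j)) y = QuotientGroup.mk' N (φ l y) :=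
      congrFun hjl' y
    rw [h1, MonoidHom.comp_apply, ← map_commutatorElement, (hcomm j l hjl x y).commutator_eq,
      map_one]
  have h2 : φ j a ∈ N := (QuotientGroup.eq_one_iff _).1 (hker ha')
  apply hN3
  refine mem_of_eventually_eq hN4 ?_ h2
  refine (eventually_ge_atTop j).mono fun i hi => ?_
  have hj : j < i + 1 := by omega
  rw [hφ j i hj, QuotientGroup.eq]
  refine mem_cpKer.2 ⟨(Pi.mulSingle 0 ⟨a, ha⟩)⁻¹ * Pi.mulSingle ⟨j, hj⟩ ⟨a, ha⟩, ?_, ?_⟩
  · simp [Finset.prod_mul_distrib, Finset.prod_pi_mulSingle']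
  · intro t
    simp only [Pi.mul_apply, Pi.inv_apply, coe_mul, InvMemClass.coe_inv, Pi.mulSingle_apply]
    split_ifs <;> simp

theorem exists_generator (hRF : HasRF W) (h : RedRF W) :
    ∃ (A : Type) (_ : Group A) (_ : Finite A),
      (∀ (p : ℕ) [Fact p.Prime] (P : Sylow p A), IsMulCommutative (P : Subgroup A)) ∧
      Satisfies W A ∧ laws A ⊆ verbal W (FreeGroup ℕ) := by
  obtain ⟨e, he0, he⟩ := exists_exponent h
  obtain ⟨B, hB⟩ := exists_index_bound h
  let P := Equiv.Perm (Fin (e ^ B * B))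
  let A := ∀ H : {H : Subgroup P // Satisfies W H}, H.1
  have hA : Satisfies W A := Satisfies.pi fun H => H.2
  refine ⟨A, inferInstance, inferInstance, ?_, hA, ?_⟩
  · exact fun p _ S => sylow_comm_of_zc (fun K => zc_of_redRF h K (hA.subgroup K)) p S
  · intro w hw
    by_contra hwV
    have hne : (QuotientGroup.mk' (verbal W (FreeGroup ℕ))) w ≠ 1 := fun h1 =>
      hwV ((QuotientGroup.eq_one_iff _).1 h1)
    obtain ⟨N, hN1, hN2, hN3⟩ := exists_normal_of_rf (hRF _ (rf_freeGroup ℕ)) hne
    have hne' : QuotientGroup.mk' N (QuotientGroup.mk' (verbal W (FreeGroup ℕ)) w) ≠ 1 :=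
      fun h1 => hN3 ((QuotientGroup.eq_one_iff _).1 h1)
    obtain ⟨K, hK1, hK2, M, hM⟩ := exists_monolith_quotient hne'
    have hQ : Satisfies W (((FreeGroup ℕ ⧸ verbal W (FreeGroup ℕ)) ⧸ N) ⧸ K) :=
      ((satisfies_quotient_verbal _).quotient N).quotient K
    have hcard := card_le_of_monolith hM he0 (he _ hQ) (hB _ hQ M hM)
      (zc_of_redRF h _ (hQ.subgroup _))
    obtain ⟨φ, hφ⟩ := exists_embed_perm hcard
    have hH : Satisfies W φ.range := hQ.of_surjective _ φ.rangeRestrict_surjective
    have hAH : Satisfies (laws A) φ.range :=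
      (satisfies_laws A).of_surjective
        (Pi.evalMonoidHom (fun H : {H : Subgroup P // Satisfies W H} => H.1) ⟨φ.range, hH⟩)
        (Function.surjective_eval _ )
    have hAQ := hAH.of_injective φ.rangeRestrict (fun x y hxy => hφ (congrArg Subtype.val hxy))
    let π := (QuotientGroup.mk' K).comp
      ((QuotientGroup.mk' N).comp (QuotientGroup.mk' (verbal W (FreeGroup ℕ))))
    have h1 := hAQ w hw (fun k => π (FreeGroup.of k))
    rw [← map_lift, FreeGroup.lift_of_eq_id] at h1
    exact hK2 ((QuotientGroup.eq_one_iff _).1 h1)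

end Pool.Agent.Lib.MP_9fd99d_al
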