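import Pool.Agent.Lib.MP_9fd99d_al.ResWreath
import Pool.Agent.Lib.MP_9fd99d_al.Key

/-!
Residual properties for a class of groups, reduced products, iterated commutators.
-/

namespace Pool.Agent.Lib.MP_9fd99d_al

open Group Subgroup Filter
open scoped commutatorElement

/-- `G` is residually in the class `X`: every nontrivial element has a nontrivial image in some
group of the class. -/
def Residually (X : (Q : Type) → [Group Q] → Prop) (G : Type) [Group G] : Prop :=
  ∀ g : G, g ≠ 1 → ∃ (Q : Type) (_ : Group Q) (φ : G →* Q), X Q ∧ φ g ≠ 1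

/-- The verbal quotient of every residually `X` group is residually `X`. -/
def Keeps (X : (Q : Type) → [Group Q] → Prop) (W : Set (FreeGroup ℕ)) : Prop :=
  ∀ (G : Type) [Group G], Residually X G → Residually X (G ⧸ verbal W G)

variable {W : Set (FreeGroup ℕ)} {X : (Q : Type) → [Group Q] → Prop}

theorem Residually.of_mem {G : Type} [Group G] (h : X G) : Residually X G :=
  fun _ hg => ⟨G, _, MonoidHom.id G, h, hg⟩

theorem Residually.of_injective {G H : Type} [Group G] [Group H] (h : Residually X H)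
    (φ : G →* H) (hφ : Function.Injective φ) : Residually X G := by
  intro g hg
  obtain ⟨Q, _, ψ, hQ, hψ⟩ := h (φ g) (fun e => hg (hφ (e.trans (map_one φ).symm)))
  exact ⟨Q, _, ψ.comp φ, hQ, hψ⟩

theorem keeps_of_all (h : ∀ (G : Type) [Group G], Satisfies W G) : Keeps X W := by
  intro G _ hG
  have hb : Function.Bijective (QuotientGroup.mk' (verbal W G)) := by
    refine ⟨?_, QuotientGroup.mk'_surjective _⟩
    rw [← MonoidHom.ker_eq_bot_iff, QuotientGroup.ker_mk']
    exact (satisfies_iff_verbal_eq_bot G).1 (h G)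
  exact hG.of_injective (MulEquiv.ofBijective _ hb).symm.toMonoidHom
    (MulEquiv.ofBijective _ hb).symm.injective

/-- A proper variety misses some finite `p`-group. -/
theorem exists_pgroup_verbal (p : ℕ) [Fact p.Prime]
    (h : ¬ ∀ (G : Type) [Group G], Satisfies W G) :
    ∃ (T : Type) (_ : Group T) (_ : Finite T) (t : T), IsPGroup p T ∧ t ∈ verbal W T ∧ t ≠ 1 := by
  have : ∃ w ∈ W, w ≠ 1 := by
    by_contra hc
    push Not at hc
    exact h fun G _ w hw f => by rw [hc w hw, map_one]
  obtain ⟨w, hw, hw1⟩ := this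
  obtain ⟨T, _, _, f, hT, hf⟩ := exists_pgroup_lift_ne_one p hw1
  exact ⟨T, _, ‹_›, _, hT, lift_mem_verbal hw f, hf⟩

theorem residually_free (p : ℕ) [Fact p.Prime]
    (hX : ∀ (Q : Type) [Group Q] [Finite Q], IsPGroup p Q → X Q) (α : Type) :
    Residually X (FreeGroup α) := by
  intro w hw
  obtain ⟨Q, _, _, f, hQ, hf⟩ := exists_pgroup_lift_ne_one p hw
  exact ⟨Q, _, FreeGroup.lift f, hX Q hQ, hf⟩

/-- Every group of the variety is a quotient of a residually `X` group of the variety. -/
theorem Keeps.exists_cover (h : Keeps X W) (hF : ∀ α, Residually X (FreeGroup α))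
    (G : Type) [Group G] (hG : Satisfies W G) :
    ∃ (L : Type) (_ : Group L) (π : L →* G),
      Function.Surjective π ∧ Satisfies W L ∧ Residually X L := by
  have hk : verbal W (FreeGroup G) ≤ (FreeGroup.lift (id : G → G)).ker := by
    intro x hx
    have := map_mem_verbal W (FreeGroup.lift (id : G → G)) hx
    rwa [(satisfies_iff_verbal_eq_bot G).1 hG, Subgroup.mem_bot] at this
  refine ⟨FreeGroup G ⧸ verbal W _, inferInstance, QuotientGroup.lift _ _ hk, fun g => ?_,
    satisfies_quotient_verbal _, h _ (hF G)⟩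
  exact ⟨QuotientGroup.mk (FreeGroup.of g), by simp⟩

/-- Reduced products of suitable groups of the variety are residually `X`. -/
theorem Keeps.red (h : Keeps X W) (Q : ℕ → Type) [∀ i, Group (Q i)] (hQ : ∀ i, Satisfies W (Q i))
    (hD : ∀ i, ∃ (D : Type) (_ : Group D) (ι : Q i →* D),
      X D ∧ Function.Injective ι ∧ ∀ q, ι q ∈ verbal W D)
    (a : ∀ i, Q i) (ha : ∀ i, a i ≠ 1) :
    ∃ (P : Type) (_ : Group P) (φ : (∀ i, Q i) →* P), X P ∧ φ a ≠ 1 ∧
      ∀ x y : ∀ i, Q i, (∀ᶠ i in atTop, x i = y i) → φ x = φ y := by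
  classical
  choose D instD ι hXD hι hD using hD
  let G : Subgroup (∀ i, D i) :=
    { carrier := {g | ∀ᶠ i in atTop, g i ∈ (ι i).range}
      mul_mem' := fun {x y} hx hy => (hx.and hy).mono fun i hi => mul_mem hi.1 hi.2
      one_mem' := Eventually.of_forall fun i => one_mem _
      inv_mem' := fun {x} hx => hx.mono fun i hi => inv_mem hi }
  let T : Subgroup G :=
    { carrier := {g | ∀ᶠ i in atTop, g.1 i = 1}
      mul_mem' := fun {x y} hx hy => (hx.and hy).mono fun i hi => by
        simp [hi.1, hi.2]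
      one_mem' := Eventually.of_forall fun i => rfl
      inv_mem' := fun {x} hx => hx.mono fun i hi => by simp [hi] }
  have hTn : T.Normal := ⟨fun n hn g => hn.mono fun i hi => by simp [hi]⟩
  let J : (∀ i, Q i) →* G :=
    (MonoidHom.pi fun i => (ι i).comp (Pi.evalMonoidHom Q i)).codRestrict G
      fun q => Eventually.of_forall fun i => ⟨q i, rfl⟩
  have hJ : ∀ q i, (J q).1 i = ι i (q i) := fun q i => rfl
  have hsurj : Function.Surjective ((QuotientGroup.mk' T).comp J) := by
    intro y
    obtain ⟨g, rfl⟩ := QuotientGroup.mk'_surjective T y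
    refine ⟨fun i => if h : g.1 i ∈ (ι i).range then h.choose else 1, ?_⟩
    rw [MonoidHom.comp_apply, QuotientGroup.mk'_apply, QuotientGroup.mk'_apply, QuotientGroup.eq]
    refine g.2.mono fun i hi => ?_
    simp only [coe_mul, InvMemClass.coe_inv, Pi.mul_apply, Pi.inv_apply, hJ, hi, dif_pos]
    rw [hi.choose_spec, inv_mul_cancel]
  have hVT : verbal W G ≤ T :=
    verbal_le_of_satisfies T ((Satisfies.pi hQ).of_surjective _ hsurj)
  have hsingle : ∀ i (d : D i), Pi.mulSingle i d ∈ G := fun i d =>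
    (eventually_ne_atTop i).mono fun j hj => by
      rw [Pi.mulSingle_eq_of_ne hj]; exact one_mem _
  have key : ∀ (n : ℕ) (g : G), (∀ i, g.1 i ∈ verbal W (D i)) → (∀ i ≥ n, g.1 i = 1) →
      g ∈ verbal W G := by
    intro n
    induction n with
    | zero =>
      intro g _ hg
      have : g = 1 := Subtype.ext (funext fun i => hg i (Nat.zero_le i))
      rw [this]; exact one_mem _
    | succ n ih =>
      intro g hv hg
      let s : D n →* G := (MonoidHom.mulSingle D n).codRestrict G (hsingle n)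
      have h1 : s (g.1 n) ∈ verbal W G := map_mem_verbal W s (hv n)
      have h2 : g * (s (g.1 n))⁻¹ ∈ verbal W G := by
        apply ih
        · intro i
          change g.1 i * ((Pi.mulSingle n (g.1 n) : ∀ i, D i) i)⁻¹ ∈ _
          by_cases hi : i = n
          · subst hi; simp
          · rw [Pi.mulSingle_eq_of_ne hi]; simpa using hv i
        · intro i hi
          change g.1 i * ((Pi.mulSingle n (g.1 n) : ∀ i, D i) i)⁻¹ = 1
          rcases hi.eq_or_lt with rfl | hlt
          · simp
          · rw [Pi.mulSingle_eq_of_ne hlt.ne', hg i hlt]; simp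
      simpa using mul_mem h2 h1
  have hG : Residually X G := by
    intro g hg
    obtain ⟨i, hi⟩ : ∃ i, g.1 i ≠ 1 := by
      by_contra hc
      push Not at hc
      exact hg (Subtype.ext (funext hc))
    exact ⟨D i, _, (Pi.evalMonoidHom D i).comp G.subtype, hXD i, hi⟩
  have hne : (QuotientGroup.mk' (verbal W G)) (J a) ≠ 1 := by
    intro h1
    have h2 : J a ∈ T := hVT ((QuotientGroup.eq_one_iff _).1 h1)
    obtain ⟨i, hi⟩ := Eventually.exists h2
    rw [hJ, ← map_one (ι i)] at hi
    exact ha i (hι i hi)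
  obtain ⟨P, _, φ, hP, hφ⟩ := h G hG _ hne
  refine ⟨P, _, φ.comp ((QuotientGroup.mk' (verbal W G)).comp J), hP, hφ, fun x y hxy => ?_⟩
  rw [← mul_inv_eq_one, ← map_inv, ← map_mul]
  obtain ⟨n, hn⟩ := eventually_atTop.1 hxy
  have := key n (J (x * y⁻¹)) (fun i => hD i _) (fun i hi => by
    rw [hJ, Pi.mul_apply, Pi.inv_apply, hn i hi, mul_inv_cancel, map_one])
  rw [MonoidHom.comp_apply, MonoidHom.comp_apply, QuotientGroup.mk'_apply,
    (QuotientGroup.eq_one_iff _).2 this, map_one]

/-- Iterated commutators of depth `k`: left-normed ones (`b = false`) or the values of the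
derived words (`b = true`). -/
def cs (b : Bool) (G : Type) [Group G] : ℕ → Set G
  | 0 => Set.univ
  | k + 1 => {x | ∃ u ∈ cs b G k, ∃ v, (b = true → v ∈ cs b G k) ∧ ⁅u, v⁆ = x}

variable {b : Bool}

theorem cs_map {G H : Type} [Group G] [Group H] (φ : G →* H) :
    ∀ (k : ℕ) {x : G}, x ∈ cs b G k → φ x ∈ cs b H k
  | 0, _, _ => trivial
  | k + 1, _, ⟨u, hu, v, hv, e⟩ =>
    ⟨φ u, cs_map φ k hu, φ v, fun h => cs_map φ k (hv h), by rw [← e, map_commutatorElement]⟩

theorem cs_lift {G H : Type} [Group G] [Group H] (φ : G →* H) (hφ : Function.Surjective φ)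
    (k : ℕ) : ∀ {y : H}, y ∈ cs b H k → ∃ x ∈ cs b G k, φ x = y := by
  induction k with
  | zero => intro y _; obtain ⟨x, hx⟩ := hφ y; exact ⟨x, trivial, hx⟩
  | succ k ih =>
    rintro _ ⟨u, hu, v, hv, rfl⟩
    obtain ⟨u', hu', rfl⟩ := ih hu
    obtain ⟨v', hv', rfl⟩ : ∃ v', (b = true → v' ∈ cs b G k) ∧ φ v' = v := by
      by_cases hb : b = true
      · obtain ⟨v', h1, h2⟩ := ih (hv hb)
        exact ⟨v', fun _ => h1, h2⟩
      · obtain ⟨v', h⟩ := hφ v
        exact ⟨v', fun h => absurd h hb, h⟩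
    exact ⟨⁅u', v'⁆, ⟨u', hu', v', hv', rfl⟩, map_commutatorElement _ _ _⟩

theorem one_mem_cs {G : Type} [Group G] : ∀ k : ℕ, (1 : G) ∈ cs b G k
  | 0 => trivial
  | k + 1 => ⟨1, one_mem_cs k, 1, fun _ => one_mem_cs k, by simp⟩

theorem cs_antitone {G : Type} [Group G] : Antitone (cs b G) := by
  refine antitone_nat_of_succ_le fun k => ?_
  induction k with
  | zero => exact Set.subset_univ _
  | succ k ih =>
    rintro _ ⟨u, hu, v, hv, e⟩
    exact ⟨u, ih hu, v, fun h => ih (hv h), e⟩

theorem cs_pi {Q : ℕ → Type} [∀ i, Group (Q i)] :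
    ∀ (k : ℕ) {x : ∀ i, Q i}, (∀ i, x i ∈ cs b (Q i) k) → x ∈ cs b (∀ i, Q i) k
  | 0, _, _ => trivial
  | k + 1, x, h => by
    choose u hu v hv e using h
    exact ⟨u, cs_pi k hu, v, fun hb => cs_pi k fun i => hv i hb, funext e⟩

theorem cs_fg {G : Type} [Group G] : ∀ (k : ℕ) {x : G}, x ∈ cs false G k →
    ∃ T : Finset G, ∀ H : Subgroup G, ↑T ⊆ (H : Set G) → ∃ y ∈ cs false H k, (y : G) = x
  | 0, x, _ => ⟨{x}, fun H h => ⟨⟨x, h (by simp)⟩, trivial, rfl⟩⟩
  | k + 1, _, ⟨u, hu, v, _, e⟩ => by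
    classical
    obtain ⟨T, hT⟩ := cs_fg k hu
    refine ⟨insert v T, fun H h => ?_⟩
    obtain ⟨y, hy, rfl⟩ := hT H (fun z hz => h (by simp [show z ∈ T from hz]))
    exact ⟨⁅y, ⟨v, h (by simp)⟩⁆, ⟨y, hy, _, by simp, rfl⟩, e⟩

theorem cs_mem_lower {G : Type} [Group G] :
    ∀ (k : ℕ) {x : G}, x ∈ cs false G k → x ∈ (⊤ : Subgroup G).lowerCentralSeries k
  | 0, _, _ => trivial
  | k + 1, _, ⟨_, hu, _, _, e⟩ => e ▸ commutator_mem_commutator (cs_mem_lower k hu) (mem_top _)

theorem cs_mem_derived {G : Type} [Group G] :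
    ∀ (k : ℕ) {x : G}, x ∈ cs true G k → x ∈ derivedSeries G k
  | 0, _, _ => trivial
  | k + 1, _, ⟨_, hu, _, hv, e⟩ =>
    e ▸ commutator_mem_commutator (cs_mem_derived k hu) (cs_mem_derived k (hv rfl))

theorem lower_eq_bot (k : ℕ) : ∀ (G : Type) [Group G], (∀ x ∈ cs false G k, x = 1) →
    (⊤ : Subgroup G).lowerCentralSeries k = ⊥ := by
  induction k with
  | zero => intro G _ h; exact eq_bot_iff.2 fun x _ => h x trivial
  | succ k ih =>
    intro G _ h
    have h1 := ih (G ⧸ center G) fun y hy => by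
      obtain ⟨x, hx, rfl⟩ := cs_lift _ (QuotientGroup.mk'_surjective _) k hy
      refine (QuotientGroup.eq_one_iff x).2 (mem_center_iff.2 fun g => ?_)
      exact (commutatorElement_eq_one_iff_mul_comm.1 (h _ ⟨x, hx, g, by simp, rfl⟩)).symm
    rw [Subgroup.lowerCentralSeries_succ, commutator_top_right_eq_bot_iff_le_center,
      ← QuotientGroup.ker_mk' (center G), ← Subgroup.map_eq_bot_iff,
      Subgroup.map_lowerCentralSeries,
      map_top_of_surjective _ (QuotientGroup.mk'_surjective _)]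
    exact h1

theorem derived_eq_bot (k : ℕ) : ∀ (G : Type) [Group G], (∀ x ∈ cs true G k, x = 1) →
    derivedSeries G k = ⊥ := by
  induction k with
  | zero => intro G _ h; exact eq_bot_iff.2 fun x _ => h x trivial
  | succ k ih =>
    intro G _ h
    let K := closure (cs true G k)
    have hK : K.Normal := ⟨fun n hn g => by
      have : K.map (MulAut.conj g).toMonoidHom ≤ K := by
        rw [MonoidHom.map_closure]
        exact closure_mono (by rintro _ ⟨x, hx, rfl⟩; exact cs_map _ k hx)
      exact this ⟨n, hn, rfl⟩⟩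
    have h1 := ih (G ⧸ K) fun y hy => by
      obtain ⟨x, hx, rfl⟩ := cs_lift _ (QuotientGroup.mk'_surjective _) k hy
      exact (QuotientGroup.eq_one_iff x).2 (subset_closure hx)
    rw [← map_derivedSeries_eq (QuotientGroup.mk'_surjective K), Subgroup.map_eq_bot_iff,
      QuotientGroup.ker_mk'] at h1
    rw [derivedSeries_succ, eq_bot_iff]
    refine (commutator_mono h1 h1).trans ?_
    rw [le_bot_iff, commutator_eq_bot_iff_le_centralizer, centralizer_closure, closure_le]
    intro x hx y hy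
    exact commutatorElement_eq_one_iff_mul_comm.1 (h _ ⟨y, hy, x, fun _ => hx, rfl⟩)

/-- If deep commutators survive in suitable groups of the variety, the variety does not keep
a residual property whose groups kill deep commutators. -/
theorem Keeps.exists_depth (h : Keeps X W) (Y : (Q : Type) → [Group Q] → Prop)
    (hY : ∀ (Q : Type) [Group Q], Y Q → ∃ (D : Type) (_ : Group D) (ι : Q →* D),
      X D ∧ Function.Injective ι ∧ ∀ q, ι q ∈ verbal W D)
    (hX : ∀ (P : Type) [Group P], X P → ∃ k, ∀ x ∈ cs b P k, x = 1) :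
    ∃ k, ∀ (Q : Type) [Group Q], Y Q → Satisfies W Q → ∀ x ∈ cs b Q k, x = 1 := by
  by_contra hc
  push Not at hc
  choose Q _ hYQ hQ a ha ha1 using hc
  obtain ⟨P, _, φ, hP, h1, h2⟩ := h.red Q hQ (fun i => hY _ (hYQ i)) a ha1
  obtain ⟨k, hk⟩ := hX P hP
  apply h1
  rw [h2 a (fun i => if k ≤ i then a i else 1)
    ((eventually_ge_atTop k).mono fun i hi => by simp [hi])]
  refine hk _ (cs_map φ k (cs_pi k fun i => ?_))
  split_ifs with hi
  · exact cs_antitone hi (ha i)
  · exact one_mem_cs k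

end Pool.Agent.Lib.MP_9fd99d_al
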