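import Pool.Agent.Lib.MP_9fd99d_al.ResCore

/-!
Varieties that keep residual nilpotence or residual solubility.
-/

namespace Pool.Agent.Lib.MP_9fd99d_al

open Group Subgroup

variable {W : Set (FreeGroup ℕ)}

theorem finite_pgroup_of_center (p : ℕ) [hp : Fact p.Prime] (H : Type) [Group H] [IsNilpotent H] :
    Group.FG H → IsPGroup p (center H) → Finite H ∧ IsPGroup p H := by
  classical
  refine Group.nilpotent_center_quotient_ind
    (P := fun G _ _ => Group.FG G → IsPGroup p (center G) → Finite G ∧ IsPGroup p G) H ?_ ?_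
  · intro G _ _ _ _
    exact ⟨inferInstance, fun g => ⟨0, Subsingleton.elim _ _⟩⟩
  · intro G _ _ ih hG hZ
    have hZ2 : IsPGroup p (center (G ⧸ center G)) := by
      rintro ⟨y, hy⟩
      obtain ⟨x, rfl⟩ := QuotientGroup.mk_surjective y
      have hc : ∀ g : G, x⁻¹ * (g * x * g⁻¹) ∈ center G := fun g => by
        rw [← QuotientGroup.eq, QuotientGroup.mk_mul, QuotientGroup.mk_mul, QuotientGroup.mk_inv,
          mem_center_iff.1 hy g, mul_inv_cancel_right]
      choose k hk using fun g : G => hZ ⟨_, hc g⟩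
      obtain ⟨S, hS, hfin⟩ := Group.fg_iff.1 hG
      refine ⟨hfin.toFinset.sup k, Subtype.ext ?_⟩
      change ((x : G ⧸ center G)) ^ _ = 1
      rw [← QuotientGroup.mk_pow, QuotientGroup.eq_one_iff, mem_center_iff]
      have : (⊤ : Subgroup G) ≤ centralizer {x ^ p ^ hfin.toFinset.sup k} := by
        rw [← hS, closure_le]
        intro g hg
        rw [SetLike.mem_coe, mem_centralizer_singleton_iff]
        obtain ⟨d, hd⟩ := Nat.exists_eq_add_of_le (Finset.le_sup (f := k) (hfin.mem_toFinset.2 hg))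
        have h1 : (x⁻¹ * (g * x * g⁻¹)) ^ p ^ hfin.toFinset.sup k = 1 := by
          have := congrArg Subtype.val (hk g)
          simp only [SubmonoidClass.mk_pow, OneMemClass.coe_one] at this
          rw [hd, pow_add, pow_mul, this, one_pow]
        have h2 : Commute x (x⁻¹ * (g * x * g⁻¹)) := mem_center_iff.1 (hc g) x
        have h3 := h2.mul_pow (p ^ hfin.toFinset.sup k)
        rw [h1, mul_one, mul_inv_cancel_left, conj_pow] at h3
        rw [← mul_inv_eq_iff_eq_mul, h3]
      exact fun g => mem_centralizer_singleton_iff.1 (this (mem_top g))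
    obtain ⟨h1, h2⟩ := ih inferInstance hZ2
    have : (center G).FiniteIndex := finiteIndex_of_finite_quotient
    have : Finite (center G) := by
      let _ : CommGroup (center G) := { (inferInstance : Group (center G)) with
        mul_comm := fun a b => Subtype.ext (mem_center_iff.1 b.2 a) }
      refine CommGroup.finite_of_fg_isMulTorsion _ fun z => ?_
      obtain ⟨k, hk⟩ := hZ z
      exact isOfFinOrder_iff_pow_eq_one.2 ⟨_, pow_pos hp.out.pos k, hk⟩
    refine ⟨Finite.of_equiv _ (groupEquivQuotientProdSubgroup (s := center G)).symm, fun g => ?_⟩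
    obtain ⟨a, ha⟩ := h2 (g : G ⧸ center G)
    rw [← QuotientGroup.mk_pow, QuotientGroup.eq_one_iff] at ha
    obtain ⟨c, hc⟩ := hZ ⟨_, ha⟩
    exact ⟨a + c, by rw [pow_add, pow_mul]; exact congrArg Subtype.val hc⟩

/-- A nontrivial element of a finitely generated nilpotent group survives in a finite quotient
of prime power order. -/
theorem exists_pgroup_quotient {H : Type} [Group H] [IsNilpotent H] [Group.FG H] {s : H}
    (hs : s ≠ 1) : ∃ (N : Subgroup H) (_ : N.Normal) (p : ℕ), p.Prime ∧ s ∉ N ∧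
      Finite (H ⧸ N) ∧ IsPGroup p (H ⧸ N) := by
  obtain ⟨N, -, ⟨hNn, hsN⟩, hmax⟩ := zorn_le_nonempty₀ {N : Subgroup H | N.Normal ∧ s ∉ N}
    (fun c hc hch y hy => by
      have hm := fun x => mem_sSup_of_directedOn (x := x) ⟨y, hy⟩ hch.directedOn
      refine ⟨sSup c, ⟨⟨fun n hn g => ?_⟩, fun h => ?_⟩, fun z hz => le_sSup hz⟩
      · obtain ⟨K, hK, hn⟩ := (hm n).1 hn
        exact (hm _).2 ⟨K, hK, (hc hK).1.conj_mem n hn g⟩
      · obtain ⟨K, hK, hn⟩ := (hm s).1 h
        exact (hc hK).2 hn) ⊥ ⟨inferInstance, by simpa using hs⟩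
  have hs1 : (s : H ⧸ N) ≠ 1 := fun h => hsN ((QuotientGroup.eq_one_iff s).1 h)
  have hz : ∀ z ∈ center (H ⧸ N), z ≠ 1 → (s : H ⧸ N) ∈ zpowers z := by
    intro z hz hz1
    by_contra hc
    have hn : (zpowers z).Normal := ⟨fun n hn g => by
      rwa [mem_center_iff.1 (zpowers_le.2 hz hn) g, mul_inv_cancel_right]⟩
    have h1 : N ≤ (zpowers z).comap (QuotientGroup.mk' N) := fun x hx => by
      rw [mem_comap, QuotientGroup.mk'_apply, (QuotientGroup.eq_one_iff x).2 hx]
      exact one_mem _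
    have h2 := hmax (y := (zpowers z).comap (QuotientGroup.mk' N)) ⟨hn.comap _, hc⟩ h1
    obtain ⟨x, rfl⟩ := QuotientGroup.mk_surjective z
    exact hz1 ((QuotientGroup.eq_one_iff x).2 (h2 (mem_zpowers _)))
  obtain ⟨p, hp, hZ⟩ : ∃ p : ℕ, p.Prime ∧ IsPGroup p (center (H ⧸ N)) := by
    by_cases hsc : (s : H ⧸ N) ∈ center (H ⧸ N)
    · have hfin : IsOfFinOrder (s : H ⧸ N) := by
        rw [isOfFinOrder_iff_zpow_eq_one]
        by_cases h2 : (s : H ⧸ N) ^ (2 : ℤ) = 1
        · exact ⟨2, two_ne_zero, h2⟩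
        · obtain ⟨j, hj⟩ := mem_zpowers_iff.1 (hz _ (zpow_mem hsc 2) h2)
          exact ⟨2 * j - 1, by omega, by rw [zpow_sub, zpow_mul, hj]; simp⟩
      obtain ⟨p, hp, hpm⟩ := Nat.exists_prime_and_dvd (n := orderOf (s : H ⧸ N)) (by simpa)
      refine ⟨p, hp, ?_⟩
      rintro ⟨z, hzc⟩
      by_cases hz1 : z = 1
      · exact ⟨0, Subtype.ext (by simpa using hz1)⟩
      obtain ⟨j, hj⟩ := mem_zpowers_iff.1 (hz z hzc hz1)
      have hzf : IsOfFinOrder z := by
        obtain ⟨m, hm0, hm⟩ := isOfFinOrder_iff_zpow_eq_one.1 hfin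
        refine isOfFinOrder_iff_zpow_eq_one.2 ⟨j * m, mul_ne_zero ?_ hm0, by rw [zpow_mul, hj, hm]⟩
        rintro rfl
        exact hs1 (by simpa using hj.symm)
      obtain ⟨a, r, hr, e⟩ := Nat.exists_eq_pow_mul_and_not_dvd hzf.orderOf_pos.ne' p hp.ne_one
      refine ⟨a, Subtype.ext ?_⟩
      by_contra hy
      apply hr
      refine hpm.trans ((orderOf_dvd_of_mem_zpowers (hz (z ^ p ^ a) (pow_mem hzc _) hy)).trans ?_)
      rw [orderOf_dvd_iff_pow_eq_one, ← pow_mul, ← e, pow_orderOf_eq_one]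
    · refine ⟨2, Nat.prime_two, ?_⟩
      rintro ⟨z, hzc⟩
      refine ⟨0, Subtype.ext ?_⟩
      by_contra hy
      exact hsc (zpowers_le.2 hzc (hz z hzc (by simpa using hy)))
  have : Fact p.Prime := ⟨hp⟩
  obtain ⟨h1, h2⟩ := finite_pgroup_of_center p (H ⧸ N) inferInstance hZ
  exact ⟨N, hNn, p, hp, hsN, h1, h2⟩

theorem keeps_nilpotent_iff : Keeps (fun Q _ => IsNilpotent Q) W ↔
    (∀ (G : Type) [Group G], Satisfies W G) ∨
      ∃ c : ℕ, ∀ (G : Type) [Group G], Satisfies W G →
        (⊤ : Subgroup G).lowerCentralSeries c = ⊥ := by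
  constructor
  · intro h
    refine or_iff_not_imp_left.2 fun hW => ?_
    obtain ⟨k, hk⟩ := h.exists_depth (b := false)
      (fun Q _ => Finite Q ∧ ∃ p : ℕ, p.Prime ∧ IsPGroup p Q)
      (by
        rintro Q _ ⟨_, p, hp, hQ⟩
        have : Fact p.Prime := ⟨hp⟩
        obtain ⟨T, _, _, t, hT, ht, ht1⟩ := exists_pgroup_verbal p hW
        obtain ⟨ι, h1, h2⟩ := exists_diag_verbal Q T ht ht1
        exact ⟨_, _, ι, (isPGroup_wreath hQ (isPGroup_wreath hQ hT)).isNilpotent, h1, h2⟩)
      (fun P _ hP => by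
        obtain ⟨n, hn⟩ := Subgroup.nilpotent_iff_lowerCentralSeries.1 hP
        exact ⟨n, fun x hx => by simpa [hn] using cs_mem_lower n hx⟩)
    refine ⟨k, fun G _ hG => lower_eq_bot k G fun x hx => ?_⟩
    obtain ⟨L, _, π, hπ, hL, hres⟩ := h.exists_cover
      (residually_free 2 fun Q _ _ hQ => hQ.isNilpotent) G hG
    obtain ⟨y, hy, rfl⟩ := cs_lift π hπ k hx
    by_contra hne
    obtain ⟨P, _, φ, hP, hφ⟩ := hres y (fun e => hne (by rw [e, map_one]))
    obtain ⟨S, hS⟩ := cs_fg k hy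
    obtain ⟨z, hz, rfl⟩ := hS (closure S) subset_closure
    let ψ := φ.comp (closure (S : Set L)).subtype
    have hP' : IsNilpotent P := hP
    obtain ⟨N, _, p, hp, hN, h1, h2⟩ := exists_pgroup_quotient (H := ψ.range)
      (s := ψ.rangeRestrict z) (fun e => hφ (congrArg Subtype.val e))
    exact hN ((QuotientGroup.eq_one_iff _).1 (hk _ ⟨h1, p, hp, h2⟩
      (((hL.subgroup _).of_surjective _ ψ.rangeRestrict_surjective).quotient N) _
      (cs_map (QuotientGroup.mk' N) k (cs_map ψ.rangeRestrict k hz))))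
  · rintro (h | ⟨c, hc⟩)
    · exact keeps_of_all h
    · exact fun G _ _ => Residually.of_mem (Subgroup.nilpotent_iff_lowerCentralSeries.2
        ⟨c, hc _ (satisfies_quotient_verbal G)⟩)

/-- Bounded derived length, for a class of soluble groups closed under the constructions used. -/
theorem Keeps.exists_derived {X : (Q : Type) → [Group Q] → Prop} (h : Keeps X W)
    (hF : ∀ α, Residually X (FreeGroup α))
    (hY : ∀ (Q : Type) [Group Q], X Q → ∃ (D : Type) (_ : Group D) (ι : Q →* D),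
      X D ∧ Function.Injective ι ∧ ∀ q, ι q ∈ verbal W D)
    (hX : ∀ (P : Type) [Group P], X P → Group.IsSolvable P)
    (hS : ∀ (P : Type) [Group P], X P → ∀ K : Subgroup P, X K) :
    ∃ c : ℕ, ∀ (G : Type) [Group G], Satisfies W G → derivedSeries G c = ⊥ := by
  obtain ⟨k, hk⟩ := h.exists_depth (b := true) X hY (fun P _ hP => by
    obtain ⟨n, hn⟩ := (hX P hP).solvable
    exact ⟨n, fun x hx => by simpa [hn] using cs_mem_derived n hx⟩)
  refine ⟨k, fun G _ hG => derived_eq_bot k G fun x hx => ?_⟩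
  obtain ⟨L, _, π, hπ, hL, hres⟩ := h.exists_cover hF G hG
  obtain ⟨y, hy, rfl⟩ := cs_lift π hπ k hx
  by_contra hne
  obtain ⟨P, _, φ, hP, hφ⟩ := hres y (fun e => hne (by rw [e, map_one]))
  exact hφ (congrArg Subtype.val (hk _ (hS P hP φ.range)
    (hL.of_surjective _ φ.rangeRestrict_surjective) _ (cs_map φ.rangeRestrict k hy)))

theorem keeps_solvable_iff : Keeps (fun Q _ => Group.IsSolvable Q) W ↔
    (∀ (G : Type) [Group G], Satisfies W G) ∨
      ∃ c : ℕ, ∀ (G : Type) [Group G], Satisfies W G → derivedSeries G c = ⊥ := by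
  constructor
  · intro h
    refine or_iff_not_imp_left.2 fun hW => h.exists_derived
      (residually_free 2 fun Q _ _ hQ => ?_) (fun Q _ hQ => ?_) (fun _ _ h => h)
      (fun P _ hP K => ?_)
    · have := hQ.isNilpotent
      infer_instance
    · obtain ⟨T, _, _, t, hT, ht, ht1⟩ := exists_pgroup_verbal 2 hW
      obtain ⟨ι, h1, h2⟩ := exists_diag_verbal Q T ht ht1
      have := hT.isNilpotent
      have h3 : Group.IsSolvable (Q ≀ᵣ T) := isSolvable_wreath
      exact ⟨_, _, ι, isSolvable_wreath, h1, h2⟩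
    · infer_instance
  · rintro (h | ⟨c, hc⟩)
    · exact keeps_of_all h
    · exact fun G _ _ => Residually.of_mem ⟨c, hc _ (satisfies_quotient_verbal G)⟩

end Pool.Agent.Lib.MP_9fd99d_al
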