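import Pool.Agent.Lib.MP_9fd99d_al.Basic

/-!
Wreath products: embedding a group in a verbal subgroup, and free groups are residually finite
`p`-groups.
-/

namespace Pool.Agent.Lib.MP_9fd99d_al

open Group Subgroup RegularWreathProduct

variable {W : Set (FreeGroup ℕ)}

/-- The base group of the wreath product. -/
def baseHom (D Q : Type) [Group D] [Group Q] : (Q → D) →* D ≀ᵣ Q where
  toFun f := ⟨f, 1⟩
  map_one' := rfl
  map_mul' f g := by
    apply RegularWreathProduct.ext
    · funext x; simp
    · simp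

theorem base_comm {D Q : Type} [Group D] [Group Q] (f : Q → D) (t : Q) :
    baseHom D Q f * inl t * (baseHom D Q f)⁻¹ * (inl t : D ≀ᵣ Q)⁻¹ =
      baseHom D Q fun x => f x * (f (t⁻¹ * x))⁻¹ := by
  apply RegularWreathProduct.ext
  · funext x; simp [baseHom]
  · simp [baseHom]

theorem base_comm_mem {D Q : Type} [Group D] [Group Q] (f : Q → D) {t : Q}
    (ht : t ∈ verbal W Q) :
    baseHom D Q (fun x => f x * (f (t⁻¹ * x))⁻¹) ∈ verbal W (D ≀ᵣ Q) := by
  rw [← base_comm]
  have h := map_mem_verbal W (inl : Q →* D ≀ᵣ Q) ht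
  exact mul_mem ((verbal_normal W _).conj_mem _ h _) (inv_mem h)

/-- The diagonal copy of `Q` in `Q ≀ (Q ≀ T)` lies in the verbal subgroup. -/
theorem exists_diag_verbal (Q T : Type) [Group Q] [Group T] {t : T} (ht : t ∈ verbal W T)
    (ht1 : t ≠ 1) :
    ∃ ι : Q →* Q ≀ᵣ (Q ≀ᵣ T), Function.Injective ι ∧ ∀ q, ι q ∈ verbal W (Q ≀ᵣ (Q ≀ᵣ T)) := by
  classical
  refine ⟨(baseHom Q (Q ≀ᵣ T)).comp (Pi.constMonoidHom _ Q), ?_, fun q => ?_⟩
  · intro a b hab
    exact congrArg (fun d : Q ≀ᵣ (Q ≀ᵣ T) => d.left 1) hab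
  · have h1 := base_comm_mem (W := W) (D := Q) (Pi.mulSingle (1 : T) q) ht
    have h2 := base_comm_mem (W := W) (D := Q) (fun x : Q ≀ᵣ T => x.left 1) h1
    rw [MonoidHom.comp_apply]
    convert h2 using 2
    funext x
    have h3 : t⁻¹ ≠ 1 := inv_ne_one.2 ht1
    simp [baseHom, Pi.mulSingle_eq_of_ne h3]

theorem isPGroup_wreath {p : ℕ} [Fact p.Prime] {D Q : Type} [Group D] [Group Q] [Finite D]
    [Finite Q] (hD : IsPGroup p D) (hQ : IsPGroup p Q) : IsPGroup p (D ≀ᵣ Q) := by
  obtain ⟨a, ha⟩ := IsPGroup.iff_card.1 hD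
  obtain ⟨b, hb⟩ := IsPGroup.iff_card.1 hQ
  exact IsPGroup.of_card (n := a * Nat.card Q + b) (by
    rw [RegularWreathProduct.card, ha, ← pow_mul, pow_add, ← hb])

theorem isPGroup_pi {p : ℕ} [Fact p.Prime] {ι : Type} [Finite ι] {Q : ι → Type}
    [∀ i, Group (Q i)] [∀ i, Finite (Q i)] (h : ∀ i, IsPGroup p (Q i)) :
    IsPGroup p (∀ i, Q i) := by
  have := Fintype.ofFinite ι
  choose a ha using fun i => IsPGroup.iff_card.1 (h i)
  exact IsPGroup.of_card (n := ∑ i, a i) (by
    rw [Nat.card_pi, ← Finset.prod_pow_eq_pow_sum]; exact Finset.prod_congr rfl fun i _ => ha i)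

theorem isSolvable_wreath {D Q : Type} [Group D] [Group Q] [hD : Group.IsSolvable D]
    [Group.IsSolvable Q] : Group.IsSolvable (D ≀ᵣ Q) := by
  have : Group.IsSolvable (Q → D) := by
    obtain ⟨n, hn⟩ := hD.solvable
    refine ⟨n, eq_bot_iff.2 fun x hx => funext fun i => ?_⟩
    have := map_derivedSeries_le_derivedSeries (Pi.evalMonoidHom (fun _ : Q => D) i) n
      ⟨x, hx, rfl⟩
    rwa [hn] at this
  refine isSolvable_of_ker_le_range (baseHom D Q) rightHom fun x hx => ⟨x.left, ?_⟩
  apply RegularWreathProduct.ext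
  · rfl
  · exact (MonoidHom.mem_ker.1 hx).symm

/-- The value of a letter. -/
def lt {α G : Type} [Group G] (f : α → G) (x : α × Bool) : G := cond x.2 (f x.1) (f x.1)⁻¹

/-- The value of a list of letters. -/
def ev {α G : Type} [Group G] (f : α → G) (L : List (α × Bool)) : G := (L.map (lt f)).prod

theorem ev_append {α G : Type} [Group G] (f : α → G) (L M : List (α × Bool)) :
    ev f (L ++ M) = ev f L * ev f M := by simp [ev]

theorem exists_pgroup_ev (p : ℕ) [hp : Fact p.Prime] {α : Type} (n : ℕ) :
    ∀ L : List (α × Bool), L.length ≤ n → L ≠ [] → FreeGroup.IsReduced L →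
      ∃ (Q : Type) (_ : Group Q) (_ : Finite Q) (f : α → Q), IsPGroup p Q ∧ ev f L ≠ 1 := by
  classical
  induction n with
  | zero => intro L hL h0; exact absurd (List.length_eq_zero_iff.1 (by omega)) h0
  | succ n ih =>
    intro L hL h0 hred
    obtain ⟨⟨a, b⟩, M, rfl⟩ := List.exists_cons_of_ne_nil h0
    obtain ⟨R, _, _, F, hR, hF⟩ : ∃ (R : Type) (_ : Group R) (_ : Finite R) (F : α → R),
        IsPGroup p R ∧ ∀ K, K <:+: M → K ≠ [] → ev F K ≠ 1 := by
      let I := {K : List (α × Bool) // K <:+: M ∧ K ≠ []}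
      have : Finite I := by
        refine Set.Finite.subset (List.finite_toSet M.sublists) fun K hK => ?_
        exact List.mem_sublists.2 hK.1.sublist
      choose Q iQ fQ f hQ hf using fun K : I => ih K.1
        (by have := K.2.1.length_le; simp at hL; omega) K.2.2
        (by
          obtain ⟨s, t, e⟩ := K.2.1.trans (List.suffix_cons (a, b) M).isInfix
          have h5 : List.IsChain _ _ := hred
          rw [← e] at h5
          exact h5.left_of_append.right_of_append)
      refine ⟨∀ K, Q K, inferInstance, inferInstance, fun x K => f K x, isPGroup_pi hQ, ?_⟩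
      intro K h1 h2 h3
      apply hf ⟨K, h1, h2⟩
      have h4 := congrArg (Pi.evalMonoidHom Q ⟨K, h1, h2⟩) h3
      rw [ev, map_list_prod, List.map_map, map_one] at h4
      rw [← h4, ev]
      congr 2
      funext x
      obtain ⟨x, c⟩ := x
      cases c <;> rfl
    obtain ⟨D, _, _, c, hD, hc⟩ : ∃ (D : Type) (_ : Group D) (_ : Finite D) (c : D),
        IsPGroup p D ∧ c ≠ 1 :=
      ⟨Multiplicative (ZMod p), inferInstance, inferInstance, Multiplicative.ofAdd 1,
        IsPGroup.of_card (n := 1) (by simp), by simp⟩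
    let q := lt F (a, b)
    let g : D ≀ᵣ R := ⟨Pi.mulSingle q c, q⟩
    let F' : α → D ≀ᵣ R := fun x => if x = a then cond b g g⁻¹ else inl (F x)
    have h1 : lt F' (a, b) = g := by cases b <;> simp [lt, F']
    have h2 : lt F' (a, !b) = g⁻¹ := by cases b <;> simp [lt, F']
    have h2' : lt F (a, !b) = q⁻¹ := by cases b <;> simp [lt, q]
    have h3 : ∀ y : α × Bool, y.1 ≠ a → lt F' y = inl (lt F y) := by
      rintro ⟨x, d⟩ hx
      cases d <;> simp [lt, F', show x ≠ a from hx]
    have key : ∀ S P, M = P ++ S → (ev F' S).left (ev F P)⁻¹ = 1 := by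
      intro S
      induction S with
      | nil => intro P _; rfl
      | cons y S ihS =>
        intro P hP
        have e1 : ev F' (y :: S) = lt F' y * ev F' S := by simp [ev]
        have e2 : ev F (P ++ [y]) = ev F P * lt F y := by simp [ev]
        have e3 := ihS (P ++ [y]) (by simp [hP])
        rw [e2, mul_inv_rev] at e3
        rw [e1, mul_left, Pi.mul_apply]
        by_cases hy : y.1 = a
        · by_cases hb : y.2 = b
          · have hy' : y = (a, b) := Prod.ext hy hb
            subst hy'
            have hne : (ev F P)⁻¹ ≠ q := by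
              intro h
              apply hF (P ++ [(a, b)]) ⟨[], S, by simp [hP]⟩ (by simp)
              rw [e2]
              change ev F P * q = 1
              rw [← h, mul_inv_cancel]
            rw [h1]
            change (Pi.mulSingle q c : R → D) _ * (ev F' S).left (q⁻¹ * _) = 1
            rw [Pi.mulSingle_eq_of_ne hne, one_mul]
            exact e3
          · have hy' : y = (a, !b) := Prod.ext hy (by
              cases b <;> cases h : y.2 <;> simp_all)
            subst hy'
            have hP0 : P ≠ [] := by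
              rintro rfl
              rw [List.nil_append] at hP
              rw [hP, FreeGroup.isReduced_cons_cons] at hred
              have := hred.1 rfl
              cases b <;> simp at this
            have hne : q * (ev F P)⁻¹ ≠ q := by
              intro h
              apply hF P ⟨[], (a, !b) :: S, by simp [hP]⟩ hP0
              simpa using h
            rw [h2' , inv_inv] at e3
            rw [h2]
            change ((Pi.mulSingle q c : R → D) (q * _))⁻¹ * (ev F' S).left (q⁻¹⁻¹ * _) = 1
            rw [Pi.mulSingle_eq_of_ne hne, inv_inv, e3]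
            simp
        · rw [h3 y hy, left_inl, right_inl, e3]
          simp
    refine ⟨D ≀ᵣ R, inferInstance, inferInstance, F', isPGroup_wreath hD hR,
      fun h => hc ?_⟩
    have e1 : ev F' ((a, b) :: M) = g * ev F' M := by simp [ev, h1]
    have e2 := key M [] rfl
    have e3 := congrArg (fun d : D ≀ᵣ R => d.left q) (e1.symm.trans h)
    simp only [ev, List.map_nil, List.prod_nil, inv_one] at e2
    simpa [g, ev, e2] using e3

/-- Free groups are residually finite `p`-groups. -/
theorem exists_pgroup_lift_ne_one (p : ℕ) [Fact p.Prime] {α : Type} {w : FreeGroup α}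
    (hw : w ≠ 1) : ∃ (Q : Type) (_ : Group Q) (_ : Finite Q) (f : α → Q),
      IsPGroup p Q ∧ FreeGroup.lift f w ≠ 1 := by
  classical
  obtain ⟨Q, _, _, f, hQ, hf⟩ := exists_pgroup_ev p _ w.toWord le_rfl
    (fun h => hw (FreeGroup.toWord_eq_nil_iff.1 h)) FreeGroup.isReduced_toWord
  refine ⟨Q, _, ‹_›, f, hQ, ?_⟩
  rw [← FreeGroup.mk_toWord (x := w), FreeGroup.lift_mk]
  exact hf

end Pool.Agent.Lib.MP_9fd99d_al
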