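import Pool.Agent.Lib.MP_9fd99d_al.FiniteGroups

/-!
Every group in the variety generated by a finite group with abelian Sylow subgroups is
residually finite.
-/

namespace Pool.Agent.Lib.MP_9fd99d_al

open Group Subgroup
open scoped commutatorElement

theorem index_centralizer_le {I L Q A : Type*} [Fintype I] [Group L] [Group Q] [Group A]
    [Finite A] (ρ : I → L →* A) (π : L →* Q) (hπ : Function.Surjective π)
    (hker : ∀ x : L, (∀ i, ρ i x = 1) → π x = 1) {M : Subgroup Q} (hM : IsMonolith M) :
    (centralizer (M : Set Q)).index ≤ Nat.card A := by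
  classical
  obtain ⟨S, hS, hmin⟩ := exists_minimal_of_wellFoundedLT
    (fun S : Finset I => (⨅ i ∈ S, (ρ i).ker) ≤ π.ker) ⟨Finset.univ, by
      intro x hx
      simp only [Finset.mem_univ, iInf_pos, mem_iInf, MonoidHom.mem_ker] at hx
      exact hker x hx⟩
  have hSne : S.Nonempty := by
    rw [Finset.nonempty_iff_ne_empty]
    rintro rfl
    apply hM.ne_bot
    rw [eq_bot_iff]
    intro q _
    obtain ⟨x, rfl⟩ := hπ q
    exact hS (by simp)
  obtain ⟨i, hi⟩ := hSne
  let D : Subgroup L := ⨅ j ∈ S.erase i, (ρ j).ker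
  have hDn : D.Normal := by
    constructor
    intro n hn g
    simp only [D, mem_iInf] at hn ⊢
    exact fun j hj => (MonoidHom.normal_ker _).conj_mem n (hn j hj) g
  have hD : D.map π ≠ ⊥ := by
    intro h
    have h1 : D ≤ π.ker := (map_eq_bot_iff D).1 h
    have h2 := hmin h1 (Finset.erase_subset i S)
    simpa using h2 hi
  have hMD : M ≤ D.map π := hM.le _ (hDn.map π hπ) hD
  have hK : (ρ i).ker.map π ≤ centralizer (M : Set Q) := by
    rintro _ ⟨k, hk, rfl⟩
    rw [mem_centralizer_iff]
    intro m hm
    obtain ⟨d, hd, rfl⟩ := hMD hm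
    rw [← commutatorElement_eq_one_iff_mul_comm, ← map_commutatorElement]
    apply hS
    simp only [mem_iInf, MonoidHom.mem_ker, map_commutatorElement]
    intro j hj
    by_cases hji : j = i
    · subst hji
      rw [show ρ j k = 1 from hk, commutatorElement_one_right]
    · have : ρ j d = 1 := by
        simp only [D, SetLike.mem_coe, mem_iInf, MonoidHom.mem_ker] at hd
        exact hd j (Finset.mem_erase.2 ⟨hji, hj⟩)
      rw [this, commutatorElement_one_left]
  have h1 : (centralizer (M : Set Q)).index ∣ (ρ i).ker.index :=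
    (index_dvd_of_le hK).trans (index_map_dvd _ hπ)
  rw [index_ker] at h1
  exact (Nat.le_of_dvd Nat.card_pos h1).trans (Nat.card_le_card_of_injective _
    (ρ i).range.subtype_injective)

theorem exists_hom_perm_of_laws {A : Type*} [Group A] [Finite A] (hA : AGroup A)
    {H : Type*} [Group H] (hH : Satisfies (laws A) H) {k : ℕ} (f : Fin k → H)
    (a : (FreeGroup.lift f).range) (ha : a ≠ 1) :
    ∃ ψ : (FreeGroup.lift f).range →* Equiv.Perm (Fin (Nat.card A ^ Nat.card A * Nat.card A)),
      ψ a ≠ 1 := by
  classical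
  have : Fintype A := Fintype.ofFinite A
  let Φ : FreeGroup (Fin k) →* ((Fin k → A) → A) := MonoidHom.pi fun v => FreeGroup.lift v
  have hker : Φ.rangeRestrict.ker ≤ (FreeGroup.lift f).rangeRestrict.ker := by
    rw [MonoidHom.ker_rangeRestrict, MonoidHom.ker_rangeRestrict]
    intro w hw
    have hlift : ∀ {G : Type _} [Group G] (g : ℕ → G),
        FreeGroup.lift g (FreeGroup.map Fin.val w) = FreeGroup.lift (fun i : Fin k => g i) w := by
      intro G _ g
      have : (FreeGroup.lift g).comp (FreeGroup.map Fin.val) =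
          FreeGroup.lift (fun i : Fin k => g i) := by
        ext i; simp
      exact DFunLike.congr_fun this w
    have h1 : FreeGroup.map Fin.val w ∈ laws A := by
      intro g
      have : (FreeGroup.lift g).comp (FreeGroup.map Fin.val) =
          FreeGroup.lift (fun i : Fin k => g i) := by
        ext i; simp
      have h2 := DFunLike.congr_fun this w
      simp only [MonoidHom.comp_apply] at h2
      rw [h2]
      exact congrFun (MonoidHom.mem_ker.1 hw) (fun i : Fin k => g i)
    have h2 := hH _ h1 (fun n => if h : n < k then f ⟨n, h⟩ else 1)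
    rw [hlift] at h2
    simpa using h2
  let π : Φ.range →* (FreeGroup.lift f).range :=
    Φ.rangeRestrict.liftOfSurjective Φ.rangeRestrict_surjective ⟨_, hker⟩
  have hπ : Function.Surjective π := by
    intro y
    obtain ⟨w, rfl⟩ := (FreeGroup.lift f).rangeRestrict_surjective y
    exact ⟨Φ.rangeRestrict w, MonoidHom.liftOfRightInverse_comp_apply _ _ _ _ _⟩
  have : Finite (FreeGroup.lift f).range := Finite.of_surjective π hπ
  obtain ⟨N, hN, haN, M, hM⟩ := exists_monolith_quotient ha
  let π' := (QuotientGroup.mk' N).comp π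
  have hπ' : Function.Surjective π' := (QuotientGroup.mk'_surjective N).comp hπ
  have hidx := index_centralizer_le
    (fun v : Fin k → A => (Pi.evalMonoidHom (fun _ => A) v).comp Φ.range.subtype) π' hπ'
    (fun x hx => by
      have : x = 1 := Subtype.ext (funext hx)
      rw [this, map_one]) hM
  have hAL : AGroup Φ.range := hA.pi.of_injective _ Φ.range.subtype_injective
  have hAQ : AGroup (_ ⧸ N) := hAL.of_surjective π' hπ'
  have hexp : ∀ g : _ ⧸ N, g ^ Nat.card A = 1 := by
    intro g
    obtain ⟨x, rfl⟩ := hπ' g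
    rw [← map_pow]
    have : x ^ Nat.card A = 1 := by
      apply Subtype.ext
      funext v
      simp
    rw [this, map_one]
  have hcard := card_le_of_monolith hM Nat.card_pos hexp hidx
    (zc_of_agroup (hAQ.of_injective _ (subtype_injective _)))
  obtain ⟨φ, hφ⟩ := exists_embed_perm hcard
  refine ⟨φ.comp (QuotientGroup.mk' N), fun h => haN ?_⟩
  rw [MonoidHom.comp_apply, ← map_one φ] at h
  exact (QuotientGroup.eq_one_iff a).1 (hφ h)

theorem rf_of_satisfies_laws {A : Type*} [Group A] [Finite A] (hA : AGroup A)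
    {H : Type*} [Group H] (hH : Satisfies (laws A) H) : ResiduallyFinite H := by
  classical
  apply residuallyFinite_of_forall_exists_finite_monoidHom.{_, 0}
  intro a ha
  let P := Equiv.Perm (Fin (Nat.card A ^ Nat.card A * Nat.card A))
  have hloc : ∀ s : Finset H, ∃ g : H → P, g a ≠ 1 ∧ ∀ x ∈ s, ∀ y ∈ s, g (x * y) = g x * g y := by
    intro s
    let f : Fin (insert a s).card → H := fun i => (insert a s).equivFin.symm i
    have hf : ∀ x ∈ insert a s, x ∈ (FreeGroup.lift f).range := fun x hx =>
      ⟨FreeGroup.of ((insert a s).equivFin ⟨x, hx⟩), by simp [f]⟩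
    obtain ⟨ψ, hψ⟩ := exists_hom_perm_of_laws hA hH f ⟨a, hf a (by simp)⟩
      (fun h => ha (congrArg Subtype.val h))
    refine ⟨fun x => if h : x ∈ (FreeGroup.lift f).range then ψ ⟨x, h⟩ else 1, ?_, ?_⟩
    · simp only [hf a (by simp), dif_pos]
      exact hψ
    · intro x hx y hy
      have h1 := hf x (by simp [hx])
      have h2 := hf y (by simp [hy])
      simp only [h1, h2, mul_mem h1 h2, dif_pos, ← map_mul]
      rfl
  choose g hg1 hg2 using hloc
  obtain ⟨χ, hχ⟩ := Finset.rado_selection (β := fun _ => P) g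
  refine ⟨P, inferInstance, inferInstance, MonoidHom.mk' χ ?_, ?_⟩
  · intro x y
    obtain ⟨t, ht, h⟩ := hχ {x, y, x * y}
    rw [h x (by simp), h y (by simp), h (x * y) (by simp)]
    exact hg2 t x (ht (by simp)) y (ht (by simp))
  · obtain ⟨t, _, h⟩ := hχ {a}
    change χ a ≠ 1
    rw [h a (by simp)]
    exact hg1 t

end Pool.Agent.Lib.MP_9fd99d_al
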